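import Pool.Agent.EVF.StmtsR

/-!
# Squad EVF, row BRL: the radical lemma for one irreducible form
-/

namespace Pool.Agent.EVF.H40

open MvPolynomial
open Helper5Frey (partRad)

lemma ncard_biUnion_le {ι α : Type*} (I : Finset ι) (A : ι → Set α) :
    (⋃ i ∈ I, A i).ncard ≤ ∑ i ∈ I, (A i).ncard := by
  classical
  induction I using Finset.induction_on with
  | empty => simp
  | insert a I ha ih =>
    rw [Finset.sum_insert ha, Finset.set_biUnion_insert]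
    exact (Set.ncard_union_le _ _).trans (Nat.add_le_add_left ih _)

lemma sb_finite (H : ℕ) : (SB H).Finite := by
  have h : SB H ⊆ ((Finset.Icc (-(H : ℤ)) H ×ˢ Finset.Icc (-(H : ℤ)) H : Finset (ℤ × ℤ)) :
      Set (ℤ × ℤ)) := by
    intro x hx
    rw [Finset.mem_coe, Finset.mem_product, Finset.mem_Icc, Finset.mem_Icc, ← abs_le, ← abs_le]
    exact hx
  exact (Finset.finite_toSet _).subset h

lemma pb_sub (H : ℕ) : PB H ⊆ SB H := fun _ hx => hx.2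

lemma pb_finite (H : ℕ) : (PB H).Finite := (sb_finite H).subset (pb_sub H)

lemma sb_ncard (H : ℕ) (hH : 1 ≤ H) : ((SB H).ncard : ℝ) ≤ 9 * (H : ℝ) ^ 2 := by
  have h : SB H ⊆ ((Finset.Icc (-(H : ℤ)) H ×ˢ Finset.Icc (-(H : ℤ)) H : Finset (ℤ × ℤ)) :
      Set (ℤ × ℤ)) := by
    intro x hx
    rw [Finset.mem_coe, Finset.mem_product, Finset.mem_Icc, Finset.mem_Icc, ← abs_le, ← abs_le]
    exact hx
  have h1 := Set.ncard_le_ncard h (Finset.finite_toSet _)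
  rw [Set.ncard_coe_finset, Finset.card_product, Int.card_Icc] at h1
  have h2 : ((H : ℤ) + 1 - -(H : ℤ)).toNat = 2 * H + 1 := by omega
  rw [h2] at h1
  have h3 : ((SB H).ncard : ℝ) ≤ ((2 * H + 1) * (2 * H + 1) : ℕ) := by exact_mod_cast h1
  have hH' : (1 : ℝ) ≤ H := by exact_mod_cast hH
  push_cast at h3
  nlinarith

/-- a trivial upper bound for the values -/
lemma bv_le (φ : MvPolynomial (Fin 2) ℤ) (s : ℕ) (hφ : φ.IsHomogeneous s) :
    ∃ C : ℕ, 1 ≤ C ∧ ∀ (H : ℕ) (x : ℤ × ℤ), x ∈ SB H → (bv φ x.1 x.2).natAbs ≤ C * H ^ s := by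
  refine ⟨∑ d ∈ φ.support, (coeff d φ).natAbs + 1, by omega, ?_⟩
  intro H x hx
  have h1 : bv φ x.1 x.2 = ∑ d ∈ φ.support, coeff d φ * (x.1 ^ d 0 * x.2 ^ d 1) := by
    unfold bv
    rw [eval_eq']
    apply Finset.sum_congr rfl
    intro d _
    rw [Fin.prod_univ_two]
    rfl
  have hx1 : x.1.natAbs ≤ H := by
    have := hx.1
    rw [← Int.natCast_natAbs] at this
    exact_mod_cast this
  have hx2 : x.2.natAbs ≤ H := by
    have := hx.2
    rw [← Int.natCast_natAbs] at this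
    exact_mod_cast this
  calc (bv φ x.1 x.2).natAbs ≤ ∑ d ∈ φ.support, (coeff d φ * (x.1 ^ d 0 * x.2 ^ d 1)).natAbs := by
        rw [h1]
        exact Int.natAbs_sum_le _ _
    _ ≤ ∑ d ∈ φ.support, (coeff d φ).natAbs * H ^ s := by
        apply Finset.sum_le_sum
        intro d hd
        rw [Int.natAbs_mul, Int.natAbs_mul, Int.natAbs_pow, Int.natAbs_pow]
        apply Nat.mul_le_mul_left
        have h2 : d 0 + d 1 = s := by
          have h3 := hφ (mem_support_iff.mp hd)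
          rw [Finsupp.weight_apply, Finsupp.sum_fintype _ _ (by intro i; simp)] at h3
          rw [Fin.sum_univ_two] at h3
          simpa using h3
        calc x.1.natAbs ^ d 0 * x.2.natAbs ^ d 1 ≤ H ^ d 0 * H ^ d 1 :=
              Nat.mul_le_mul (Nat.pow_le_pow_left hx1 _) (Nat.pow_le_pow_left hx2 _)
          _ = H ^ s := by rw [← pow_add, h2]
    _ = (∑ d ∈ φ.support, (coeff d φ).natAbs) * H ^ s := by rw [Finset.sum_mul]
    _ ≤ _ := Nat.mul_le_mul_right _ (Nat.le_succ _)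

lemma partRad_mul_le (K K' m : ℕ) : partRad (K * K') m ≤ partRad K m := by
  unfold partRad
  apply Finset.prod_le_prod_of_subset_of_one_le'
  · intro p hp
    rw [Finset.mem_filter] at hp ⊢
    exact ⟨hp.1, fun h => hp.2 (h.mul_right _)⟩
  · intro p hp _
    exact (Nat.prime_of_mem_primeFactors (Finset.mem_filter.mp hp).1).one_lt.le

lemma kPart_pos (K m : ℕ) : 1 ≤ kPart K m := by
  unfold kPart
  apply Nat.one_le_iff_ne_zero.mpr
  rw [Finset.prod_ne_zero_iff]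
  intro p hp
  exact pow_ne_zero _ (Nat.prime_of_mem_primeFactors (Finset.mem_filter.mp hp).1).ne_zero

lemma cls_mul {φ : MvPolynomial (Fin 2) ℤ} {s K : ℕ} (h : Cls φ s K) (K' : ℕ) :
    Cls φ s (K' * K) := fun n hn hc => h n hn (Nat.Coprime.coprime_mul_left_right hc)

/-- sum of `w ^ ε' (A / w + 1)` -/
lemma sum_bound (ε' θ : ℝ) (hε : 0 < ε') (hθ2 : θ ≤ 2) :
    ∃ C : ℝ, 0 < C ∧ ∀ H W : ℕ, 1 ≤ H → (W : ℝ) ≤ (H : ℝ) ^ θ → ∀ A : ℝ, 0 ≤ A →
      ∑ w ∈ Finset.Icc 1 W, (w : ℝ) ^ ε' * (A / w + 1) ≤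
        C * (H : ℝ) ^ (3 * ε') * (A + (H : ℝ) ^ θ) := by
  refine ⟨1 + 2 / ε', by positivity, ?_⟩
  intro H W hH hW A hA
  have hH' : (1 : ℝ) ≤ H := by exact_mod_cast hH
  have hH0 : (0 : ℝ) < H := by linarith
  have hlog : Real.log H ≤ (H : ℝ) ^ ε' / ε' := Real.log_le_rpow_div hH0.le hε
  have hone : (1 : ℝ) ≤ (H : ℝ) ^ ε' := Real.one_le_rpow hH' hε.le
  have hwle : ∀ w ∈ Finset.Icc 1 W, (w : ℝ) ^ ε' ≤ (H : ℝ) ^ (2 * ε') := by
    intro w hw
    rw [Finset.mem_Icc] at hw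
    have h1 : (w : ℝ) ≤ (H : ℝ) ^ (2 : ℝ) := by
      have h2 : (w : ℝ) ≤ W := by exact_mod_cast hw.2
      exact h2.trans (hW.trans (Real.rpow_le_rpow_of_exponent_le hH' hθ2))
    calc (w : ℝ) ^ ε' ≤ ((H : ℝ) ^ (2 : ℝ)) ^ ε' :=
          Real.rpow_le_rpow (by positivity) h1 hε.le
      _ = (H : ℝ) ^ (2 * ε') := by rw [← Real.rpow_mul hH0.le]
  have h1 : ∑ w ∈ Finset.Icc 1 W, (w : ℝ) ^ ε' * (A / w + 1) ≤
      (H : ℝ) ^ (2 * ε') * ∑ w ∈ Finset.Icc 1 W, (A / w + 1) := by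
    rw [Finset.mul_sum]
    apply Finset.sum_le_sum
    intro w hw
    have hw1 : (0 : ℝ) < w := by
      rw [Finset.mem_Icc] at hw
      exact_mod_cast hw.1
    apply mul_le_mul_of_nonneg_right (hwle w hw)
    positivity
  have h2 : ∑ w ∈ Finset.Icc 1 W, (A / (w : ℝ) + 1) = A * (harmonic W : ℝ) + W := by
    rw [Finset.sum_add_distrib, harmonic_eq_sum_Icc]
    push_cast
    rw [Finset.mul_sum]
    congr 1
    simp
  have h3 : (harmonic W : ℝ) ≤ 1 + Real.log W := harmonic_le_one_add_log W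
  have h4 : Real.log W ≤ 2 * Real.log H := by
    rcases Nat.eq_zero_or_pos W with h0 | h0
    · rw [h0]
      simp only [Nat.cast_zero, Real.log_zero]
      have := Real.log_nonneg hH'
      linarith
    · have h5 : (W : ℝ) ≤ (H : ℝ) ^ (2 : ℝ) :=
        hW.trans (Real.rpow_le_rpow_of_exponent_le hH' hθ2)
      have h6 := Real.log_le_log (by exact_mod_cast h0) h5
      rwa [Real.log_rpow hH0] at h6
  have h5 : (harmonic W : ℝ) ≤ (1 + 2 / ε') * (H : ℝ) ^ ε' := by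
    calc (harmonic W : ℝ) ≤ 1 + 2 * Real.log H := by linarith
      _ ≤ 1 + 2 * ((H : ℝ) ^ ε' / ε') := by linarith
      _ ≤ (H : ℝ) ^ ε' + 2 * ((H : ℝ) ^ ε' / ε') := by linarith
      _ = (1 + 2 / ε') * (H : ℝ) ^ ε' := by ring
  have h6 : A * (harmonic W : ℝ) + W ≤ (1 + 2 / ε') * (H : ℝ) ^ ε' * (A + (H : ℝ) ^ θ) := by
    have h7 : (W : ℝ) ≤ (1 + 2 / ε') * (H : ℝ) ^ ε' * (H : ℝ) ^ θ := by
      have h8 : (1 : ℝ) ≤ (1 + 2 / ε') * (H : ℝ) ^ ε' := by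
        have : (0 : ℝ) ≤ 2 / ε' := by positivity
        nlinarith
      have h9 : (0 : ℝ) ≤ (H : ℝ) ^ θ := by positivity
      nlinarith
    nlinarith [mul_le_mul_of_nonneg_left h5 hA]
  calc _ ≤ (H : ℝ) ^ (2 * ε') * (A * (harmonic W : ℝ) + W) := by rw [← h2]; exact h1
    _ ≤ (H : ℝ) ^ (2 * ε') * ((1 + 2 / ε') * (H : ℝ) ^ ε' * (A + (H : ℝ) ^ θ)) :=
        mul_le_mul_of_nonneg_left h6 (by positivity)
    _ = (1 + 2 / ε') * ((H : ℝ) ^ (2 * ε') * (H : ℝ) ^ ε') * (A + (H : ℝ) ^ θ) := by ring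
    _ = _ := by
        rw [← Real.rpow_add hH0]
        congr 3
        ring

/-- the main case `φ(1, 0) ≠ 0`, `ε < 1` -/
lemma brl_main (hroo : RooStmt) (hsqf : SqfStmt) (hsmv : SmvStmt) (hkpt : KptStmt)
    (hshb : ShbStmt) (hlin : LinStmt) (hdom : Pool.Agent.RAD.DomStmt)
    (φ : MvPolynomial (Fin 2) ℤ) (s K : ℕ) (hφ : φ.IsHomogeneous s) (hirr : Irreducible φ)
    (hs : 1 ≤ s) (hK : 1 ≤ K) (h10 : bv φ 1 0 ≠ 0) (ε : ℝ) (hε : 0 < ε) (hε1 : ε < 1) :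
    ∃ C η : ℝ, 0 < η ∧ ∀ H : ℕ, 1 ≤ H →
      ({x : ℤ × ℤ | x ∈ PB H ∧ (bv φ x.1 x.2 = 0 ∨
        (partRad K (bv φ x.1 x.2).natAbs : ℝ) ≤
          (H : ℝ) ^ (((min s 4 : ℕ) : ℝ) - ε))}.ncard : ℝ) ≤ C * (H : ℝ) ^ (2 - η) := by
  classical
  obtain ⟨K₀, hK₀, hcls₀⟩ := hroo φ s hφ hirr h10 hs
  set K' := K * K₀ with hK'
  have hK'1 : 1 ≤ K' := Nat.mul_pos hK hK₀
  have hcls : Cls φ s K' := cls_mul hcls₀ K
  obtain ⟨Cφ, hCφ1, hCφ⟩ := bv_le φ s hφ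
  -- the constants of LIN
  obtain ⟨CL, η', hη', hLIN⟩ : ∃ C η' : ℝ, 0 < η' ∧ (2 ≤ s → ∀ H : ℕ, 1 ≤ H →
      ∀ (w : ℕ) (t c : ℤ) (k : ℕ), 1 ≤ w → (w : ℝ) ≤ (H : ℝ) ^ (2 - ε / 2) → c ≠ 0 → 2 ≤ k →
      k ≤ s + 1 → ({x : ℤ × ℤ | x ∈ PB H ∧ (w : ℤ) ∣ x.1 - t * x.2 ∧
        ∃ q : ℕ, 1 ≤ q ∧ bv φ x.1 x.2 = c * (q : ℤ) ^ k}.ncard : ℝ) ≤
          C * ((H : ℝ) ^ 2 / w * (H : ℝ) ^ (-η') + 1)) := by
    by_cases h2 : 2 ≤ s
    · obtain ⟨C, η', h1, h3⟩ := hlin φ s hφ hirr h2 (ε / 2) (by linarith) (by linarith)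
      exact ⟨C, η', h1, fun _ => h3⟩
    · exact ⟨1, 1, one_pos, fun h => absurd h h2⟩
  set δ' : ℝ := min (ε / 20) (η' / 8) with hδ'
  have hδ'0 : 0 < δ' := by
    rw [hδ']
    exact lt_min (by linarith) (by linarith)
  have hδ'1 : δ' ≤ ε / 20 := min_le_left _ _
  have hδ'2 : δ' ≤ η' / 8 := min_le_right _ _
  set ε' : ℝ := min (ε / 60) (η' / 24) with hε'
  have hε'0 : 0 < ε' := lt_min (by linarith) (by linarith)
  have hε'1 : ε' ≤ ε / 60 := min_le_left _ _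
  have hε'2 : ε' ≤ η' / 24 := min_le_right _ _
  obtain ⟨CD, hCD1, hCD⟩ := hdom s ε' hε'0
  obtain ⟨CS, hCS0, hCS⟩ := sum_bound ε' (2 - ε / 2) hε'0 (by linarith)
  obtain ⟨C₁, η₁, hη₁, hE1⟩ := hsmv φ s hφ h10 hs (ε / 20) (by linarith)
  obtain ⟨C₂, η₂, hη₂, hE2⟩ := hkpt φ s K' hφ h10 hs hK'1 δ' hδ'0
  obtain ⟨C₃, η₃, hη₃, hE3⟩ := hsqf φ s K' hs hK'1 hcls (ε / 20) (by linarith) (by linarith)
  obtain ⟨H₁, hH₁⟩ := hshb s K' ε hs hK'1 hε hε1
  set H₀ : ℕ := max (max H₁ Cφ) 2 with hH₀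
  set η : ℝ := min (min η₁ η₂) (min η₃ (min (η' / 2) (ε / 4))) with hη
  have hη0 : 0 < η := by
    rw [hη]
    refine lt_min (lt_min hη₁ hη₂) (lt_min hη₃ (lt_min (by linarith) (by linarith)))
  have e1 : η ≤ η₁ := (min_le_left _ _).trans (min_le_left _ _)
  have e2 : η ≤ η₂ := (min_le_left _ _).trans (min_le_right _ _)
  have e3 : η ≤ η₃ := (min_le_right _ _).trans (min_le_left _ _)
  have e4 : η ≤ η' / 2 := (min_le_right _ _).trans ((min_le_right _ _).trans (min_le_left _ _))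
  have e5 : η ≤ ε / 4 := (min_le_right _ _).trans ((min_le_right _ _).trans (min_le_right _ _))
  have hη2 : η ≤ 2 := by linarith
  set C₄ : ℝ := 2 * (s + 1) * CD * |CL| * CS * 2 with hC₄
  have hC₄0 : 0 ≤ C₄ := by positivity
  refine ⟨|C₁| + |C₂| + |C₃| + C₄ + 9 * (H₀ : ℝ) ^ 2, η, hη0, ?_⟩
  intro H hH
  have hH' : (1 : ℝ) ≤ H := by exact_mod_cast hH
  have hHpos : (0 : ℝ) < H := by linarith
  have hpw : (1 : ℝ) ≤ (H : ℝ) ^ (2 - η) := Real.one_le_rpow hH' (by linarith)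
  set Bad : Set (ℤ × ℤ) := {x : ℤ × ℤ | x ∈ PB H ∧ (bv φ x.1 x.2 = 0 ∨
        (partRad K (bv φ x.1 x.2).natAbs : ℝ) ≤
          (H : ℝ) ^ (((min s 4 : ℕ) : ℝ) - ε))} with hBad
  have hBadsub : Bad ⊆ SB H := fun x hx => pb_sub H hx.1
  rcases lt_or_ge H H₀ with hlt | hge
  · -- small `H`
    have h1 : (Bad.ncard : ℝ) ≤ 9 * (H : ℝ) ^ 2 :=
      le_trans (by exact_mod_cast Set.ncard_le_ncard hBadsub (sb_finite H)) (sb_ncard H hH)
    have h2 : (H : ℝ) ^ 2 ≤ (H₀ : ℝ) ^ 2 := by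
      have : (H : ℝ) ≤ H₀ := by exact_mod_cast hlt.le
      gcongr
    have h3 : 9 * (H₀ : ℝ) ^ 2 * 1 ≤ 9 * (H₀ : ℝ) ^ 2 * (H : ℝ) ^ (2 - η) :=
      mul_le_mul_of_nonneg_left hpw (by positivity)
    have h4 : 0 ≤ (|C₁| + |C₂| + |C₃| + C₄) * (H : ℝ) ^ (2 - η) := by positivity
    nlinarith
  have hHH₁ : H₁ ≤ H := le_trans ((le_max_left _ _).trans (le_max_left _ _)) hge
  have hHCφ : Cφ ≤ H := le_trans ((le_max_right _ _).trans (le_max_left _ _)) hge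
  have hH2 : 2 ≤ H := le_trans (le_max_right _ _) hge
  have hH2' : (2 : ℝ) ≤ H := by exact_mod_cast hH2
  set E₁ : Set (ℤ × ℤ) := {x : ℤ × ℤ | x ∈ SB H ∧
    |(bv φ x.1 x.2 : ℝ)| < (H : ℝ) ^ ((s : ℝ) - ε / 20)} with hE₁
  set E₂ : Set (ℤ × ℤ) := {x : ℤ × ℤ | x ∈ SB H ∧ bv φ x.1 x.2 ≠ 0 ∧
        (H : ℝ) ^ δ' < kPart K' (bv φ x.1 x.2).natAbs} with hE₂
  set E₃ : Set (ℤ × ℤ) := {x : ℤ × ℤ | x ∈ PB H ∧ ∃ d : ℕ, (H : ℝ) ^ (ε / 20) < d ∧
        (d : ℝ) ≤ (H : ℝ) ^ (2 - ε / 20) ∧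
        Nat.Coprime d K' ∧ (d : ℤ) ^ 2 ∣ bv φ x.1 x.2} with hE₃
  have h1 := hE1 H hH
  have h2 := hE2 H hH
  have h3 := hE3 H hH
  -- classes
  let S : ℕ → Finset ℤ := fun w =>
    if h : 1 ≤ w ∧ Nat.Coprime w K' then (hcls w h.1 h.2).choose else ∅
  have hS1 : ∀ w, 1 ≤ w → ((S w).card : ℝ) ≤ CD * (w : ℝ) ^ ε' := by
    intro w hw
    by_cases h : 1 ≤ w ∧ Nat.Coprime w K'
    · have h5 : S w = (hcls w h.1 h.2).choose := dif_pos h
      have h6 := (hcls w h.1 h.2).choose_spec.1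
      rw [← h5] at h6
      calc ((S w).card : ℝ) ≤ ((s ^ w.primeFactors.card : ℕ) : ℝ) := by exact_mod_cast h6
        _ = (s : ℝ) ^ w.primeFactors.card := by push_cast; rfl
        _ ≤ _ := hCD w hw
    · have h5 : S w = ∅ := dif_neg h
      rw [h5, Finset.card_empty, Nat.cast_zero]
      have : (0 : ℝ) ≤ (w : ℝ) ^ ε' := by positivity
      nlinarith
  have hS2 : ∀ w, 1 ≤ w → Nat.Coprime w K' → ∀ a b : ℤ, IsCoprime a b →
      (w : ℤ) ∣ bv φ a b → ∃ t ∈ S w, (w : ℤ) ∣ a - t * b := by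
    intro w hw hc
    have h5 : S w = (hcls w hw hc).choose := dif_pos ⟨hw, hc⟩
    rw [h5]
    exact (hcls w hw hc).choose_spec.2
  set U : ℕ := ⌊(H : ℝ) ^ δ'⌋₊ with hU
  set W : ℕ := ⌊(H : ℝ) ^ (2 - ε / 2)⌋₊ with hW
  have hUle : (U : ℝ) ≤ (H : ℝ) ^ δ' := Nat.floor_le (by positivity)
  have hWle : (W : ℝ) ≤ (H : ℝ) ^ (2 - ε / 2) := Nat.floor_le (by positivity)
  let A : ℕ → ℕ → ℤ → ℤ → ℕ → Set (ℤ × ℤ) := fun u w t σ k =>
    {x : ℤ × ℤ | x ∈ PB H ∧ (w : ℤ) ∣ x.1 - t * x.2 ∧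
        ∃ q : ℕ, 1 ≤ q ∧ bv φ x.1 x.2 = (σ * (u * w)) * (q : ℤ) ^ k}
  set E₄ : Set (ℤ × ℤ) := ⋃ u ∈ Finset.Icc 1 U, ⋃ w ∈ Finset.Icc 1 W, ⋃ t ∈ S w,
    ⋃ σ ∈ ({1, -1} : Finset ℤ), ⋃ k ∈ Finset.Icc 2 (s + 1), A u w t σ k with hE₄
  -- the covering
  have hcover : Bad ⊆ ((E₁ ∪ E₂) ∪ E₃) ∪ (if 2 ≤ s then E₄ else ∅) := by
    intro x hx
    by_contra hcon
    rw [Set.mem_union, Set.mem_union, Set.mem_union, not_or, not_or, not_or] at hcon
    obtain ⟨⟨⟨n1, n2⟩, n3⟩, n4⟩ := hcon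
    obtain ⟨hxP, hxb⟩ := hx
    have hxS := pb_sub H hxP
    have f1 : (H : ℝ) ^ ((s : ℝ) - ε / 20) ≤ |(bv φ x.1 x.2 : ℝ)| := by
      by_contra h
      exact n1 ⟨hxS, not_le.mp h⟩
    have f0 : bv φ x.1 x.2 ≠ 0 := by
      intro h
      rw [h, Int.cast_zero, abs_zero] at f1
      have : (0 : ℝ) < (H : ℝ) ^ ((s : ℝ) - ε / 20) := by positivity
      linarith
    have f2 : (kPart K' (bv φ x.1 x.2).natAbs : ℝ) ≤ (H : ℝ) ^ δ' := by
      by_contra h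
      exact n2 ⟨hxS, f0, not_le.mp h⟩
    have f3 : ∀ d : ℕ, (H : ℝ) ^ (ε / 20) < d → (d : ℝ) ≤ (H : ℝ) ^ (2 - ε / 20) →
        Nat.Coprime d K' → ¬ d ^ 2 ∣ (bv φ x.1 x.2).natAbs := by
      intro d hd1 hd2 hd3 hd4
      apply n3
      refine ⟨hxP, d, hd1, hd2, hd3, ?_⟩
      have : ((d ^ 2 : ℕ) : ℤ) ∣ bv φ x.1 x.2 := Int.natCast_dvd.mpr hd4
      simpa using this
    set m := (bv φ x.1 x.2).natAbs with hm
    have hmabs : (m : ℝ) = |(bv φ x.1 x.2 : ℝ)| := by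
      rw [hm, Nat.cast_natAbs, Int.cast_abs]
    have f4 : (partRad K' m : ℝ) ≤ (H : ℝ) ^ (((min s 4 : ℕ) : ℝ) - ε) := by
      rcases hxb with h | h
      · exact absurd h f0
      · refine le_trans ?_ h
        exact_mod_cast partRad_mul_le K K₀ m
    have f5 : (m : ℝ) ≤ (H : ℝ) ^ (s + 1) := by
      have h5 := hCφ H x hxS
      have h6 : m ≤ H * H ^ s := h5.trans (Nat.mul_le_mul_right _ hHCφ)
      have h7 : (m : ℝ) ≤ ((H * H ^ s : ℕ) : ℝ) := by exact_mod_cast h6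
      push_cast at h7
      rw [pow_succ']
      exact h7
    obtain ⟨w, q, k, g1, g2, g3, g4, g5, g6, g7⟩ := hH₁ H hHH₁ m f5 (by rw [hmabs]; exact f1)
      (f2.trans (Real.rpow_le_rpow_of_exponent_le hH' hδ'1)) f3 f4
    have hkP := kPart_pos K' m
    have hqpos : (1 : ℝ) < q := by
      refine lt_of_le_of_lt ?_ g4
      exact Real.one_le_rpow hH' (by linarith)
    have hq1 : 1 ≤ q := by exact_mod_cast hqpos.le
    have hqk : q ^ 2 ≤ m := by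
      calc q ^ 2 ≤ q ^ k := Nat.pow_le_pow_right hq1 g5
        _ ≤ kPart K' m * w * q ^ k := Nat.le_mul_of_pos_left _ (Nat.mul_pos hkP g1)
        _ = m := g7.symm
    by_cases hs2 : 2 ≤ s
    · rw [if_pos hs2] at n4
      apply n4
      have hwdvd : (w : ℤ) ∣ bv φ x.1 x.2 := by
        rw [Int.natCast_dvd]
        exact ⟨kPart K' m * q ^ k, by rw [← hm]; nth_rewrite 1 [g7]; ring⟩
      obtain ⟨t, ht1, ht2⟩ := hS2 w g1 g2 x.1 x.2 hxP.1 hwdvd
      rw [hE₄]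
      simp only [Set.mem_iUnion]
      refine ⟨kPart K' m, ?_, w, ?_, t, ht1, ?_⟩
      · rw [Finset.mem_Icc]
        exact ⟨hkP, Nat.le_floor f2⟩
      · rw [Finset.mem_Icc]
        exact ⟨g1, Nat.le_floor g3⟩
      · rcases Int.natAbs_eq (bv φ x.1 x.2) with h | h
        · refine ⟨1, by simp, k, ?_, hxP, ht2, q, hq1, ?_⟩
          · rw [Finset.mem_Icc]
            exact ⟨g5, g6⟩
          · rw [h, ← hm]
            nth_rewrite 1 [g7]
            push_cast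
            ring
        · refine ⟨-1, by simp, k, ?_, hxP, ht2, q, hq1, ?_⟩
          · rw [Finset.mem_Icc]
            exact ⟨g5, g6⟩
          · rw [h, ← hm]
            nth_rewrite 1 [g7]
            push_cast
            ring
    · -- `s = 1`
      have hs1 : s = 1 := by omega
      have h5 : (q : ℝ) ^ 2 ≤ m := by exact_mod_cast hqk
      rw [hs1] at f5
      have h6 : (H : ℝ) < q := by
        refine lt_of_le_of_lt ?_ g4
        calc (H : ℝ) = (H : ℝ) ^ (1 : ℝ) := (Real.rpow_one _).symm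
          _ ≤ _ := Real.rpow_le_rpow_of_exponent_le hH' (by linarith)
      have h7 : (H : ℝ) ^ 2 < (q : ℝ) ^ 2 := by gcongr
      norm_num at f5
      linarith
  -- counting
  have hfinE1 : E₁.Finite := (sb_finite H).subset fun x hx => hx.1
  have hfinE2 : E₂.Finite := (sb_finite H).subset fun x hx => hx.1
  have hfinE3 : E₃.Finite := (pb_finite H).subset fun x hx => hx.1
  have hAfin : ∀ u w t σ k, (A u w t σ k).Finite := fun u w t σ k =>
    (pb_finite H).subset fun x hx => hx.1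
  have hfinE4 : E₄.Finite := by
    refine (pb_finite H).subset ?_
    intro x hx
    rw [hE₄] at hx
    simp only [Set.mem_iUnion] at hx
    obtain ⟨_, _, _, _, _, _, _, _, _, _, hx1⟩ := hx
    exact hx1.1
  have hcount4 : 2 ≤ s → (E₄.ncard : ℝ) ≤ C₄ * (H : ℝ) ^ (2 - η) := by
    intro hs2
    set Z : ℝ := (H : ℝ) ^ 2 * (H : ℝ) ^ (-η') with hZ
    have hZ0 : 0 ≤ Z := by positivity
    have hA : ∀ u ∈ Finset.Icc 1 U, ∀ w ∈ Finset.Icc 1 W, ∀ t : ℤ,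
        ∀ σ ∈ ({1, -1} : Finset ℤ), ∀ k ∈ Finset.Icc 2 (s + 1),
          ((A u w t σ k).ncard : ℝ) ≤ |CL| * (Z / w + 1) := by
      intro u hu w hw t σ hσ k hk
      rw [Finset.mem_Icc] at hu hw hk
      have hσ0 : σ ≠ 0 := by
        rw [Finset.mem_insert, Finset.mem_singleton] at hσ
        rcases hσ with h | h <;> rw [h] <;> decide
      have hc : σ * ((u : ℤ) * w) ≠ 0 := by
        refine mul_ne_zero hσ0 (mul_ne_zero ?_ ?_)
        · exact_mod_cast (by omega : u ≠ 0)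
        · exact_mod_cast (by omega : w ≠ 0)
      have hwW : (w : ℝ) ≤ (H : ℝ) ^ (2 - ε / 2) := by
        refine le_trans ?_ hWle
        exact_mod_cast hw.2
      have h5 := hLIN hs2 H hH w t (σ * ((u : ℤ) * w)) k hw.1 hwW hc hk.1 hk.2
      refine h5.trans ?_
      have h6 : (H : ℝ) ^ 2 / w * (H : ℝ) ^ (-η') + 1 = Z / w + 1 := by
        rw [hZ]; ring
      rw [h6]
      have h7 : 0 ≤ Z / (w : ℝ) + 1 := by positivity
      exact mul_le_mul_of_nonneg_right (le_abs_self _) h7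
    have hcard : (E₄.ncard : ℝ) ≤ ∑ u ∈ Finset.Icc 1 U, ∑ w ∈ Finset.Icc 1 W, ∑ t ∈ S w,
        ∑ σ ∈ ({1, -1} : Finset ℤ), ∑ k ∈ Finset.Icc 2 (s + 1), |CL| * (Z / w + 1) := by
      have h5 : E₄.ncard ≤ ∑ u ∈ Finset.Icc 1 U, ∑ w ∈ Finset.Icc 1 W, ∑ t ∈ S w,
        ∑ σ ∈ ({1, -1} : Finset ℤ), ∑ k ∈ Finset.Icc 2 (s + 1), (A u w t σ k).ncard := by
        refine (ncard_biUnion_le _ _).trans (Finset.sum_le_sum fun u _ => ?_)
        refine (ncard_biUnion_le _ _).trans (Finset.sum_le_sum fun w _ => ?_)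
        refine (ncard_biUnion_le _ _).trans (Finset.sum_le_sum fun t _ => ?_)
        refine (ncard_biUnion_le _ _).trans (Finset.sum_le_sum fun σ _ => ?_)
        exact ncard_biUnion_le _ _
      have h6 : (E₄.ncard : ℝ) ≤ ((∑ u ∈ Finset.Icc 1 U, ∑ w ∈ Finset.Icc 1 W, ∑ t ∈ S w,
        ∑ σ ∈ ({1, -1} : Finset ℤ), ∑ k ∈ Finset.Icc 2 (s + 1), (A u w t σ k).ncard : ℕ) : ℝ) := by
        exact_mod_cast h5
      refine h6.trans ?_
      push_cast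
      refine Finset.sum_le_sum fun u hu => Finset.sum_le_sum fun w hw =>
        Finset.sum_le_sum fun t _ => Finset.sum_le_sum fun σ hσ => Finset.sum_le_sum fun k hk => ?_
      exact hA u hu w hw t σ hσ k hk
    have hinner : ∀ w ∈ Finset.Icc 1 W, ∑ t ∈ S w,
        ∑ σ ∈ ({1, -1} : Finset ℤ), ∑ k ∈ Finset.Icc 2 (s + 1), |CL| * (Z / w + 1) ≤
          2 * (s + 1) * CD * |CL| * ((w : ℝ) ^ ε' * (Z / w + 1)) := by
      intro w hw
      rw [Finset.mem_Icc] at hw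
      have h7 : 0 ≤ Z / (w : ℝ) + 1 := by positivity
      rw [Finset.sum_const, Finset.sum_const, Finset.sum_const, nsmul_eq_mul, nsmul_eq_mul,
        nsmul_eq_mul, Nat.card_Icc]
      have h8 : (({1, -1} : Finset ℤ)).card = 2 := by decide
      rw [h8]
      have h9 : ((s + 1 + 1 - 2 : ℕ) : ℝ) ≤ s + 1 := by
        have : s + 1 + 1 - 2 ≤ s + 1 := by omega
        exact_mod_cast this
      have h10 := hS1 w hw.1
      have h11 : 0 ≤ |CL| * (Z / (w : ℝ) + 1) := by positivity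
      calc ((S w).card : ℝ) * (((2 : ℕ) : ℝ) * (((s + 1 + 1 - 2 : ℕ) : ℝ) *
              (|CL| * (Z / w + 1))))
          ≤ (CD * (w : ℝ) ^ ε') * (((2 : ℕ) : ℝ) * (((s : ℝ) + 1) *
              (|CL| * (Z / w + 1)))) := by gcongr
        _ = _ := by push_cast; ring
    have h12 := hCS H W hH hWle Z hZ0
    have hsum : (E₄.ncard : ℝ) ≤ (U : ℝ) * (2 * (s + 1) * CD * |CL| *
        (CS * (H : ℝ) ^ (3 * ε') * (Z + (H : ℝ) ^ (2 - ε / 2)))) := by
      refine hcard.trans ?_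
      rw [Finset.sum_const, nsmul_eq_mul, Nat.card_Icc]
      have h13 : ((U + 1 - 1 : ℕ) : ℝ) = U := by simp
      rw [h13]
      apply mul_le_mul_of_nonneg_left _ (Nat.cast_nonneg _)
      refine (Finset.sum_le_sum hinner).trans ?_
      rw [← Finset.mul_sum]
      apply mul_le_mul_of_nonneg_left h12
      positivity
    have h14 : (H : ℝ) ^ δ' * ((H : ℝ) ^ (3 * ε') * Z) ≤ (H : ℝ) ^ (2 - η) := by
      have h15 : Z = (H : ℝ) ^ (2 - η') := by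
        rw [hZ, ← Real.rpow_natCast, ← Real.rpow_add hHpos]
        congr 1
      rw [h15, ← Real.rpow_add hHpos, ← Real.rpow_add hHpos]
      apply Real.rpow_le_rpow_of_exponent_le hH'
      linarith
    have h16 : (H : ℝ) ^ δ' * ((H : ℝ) ^ (3 * ε') * (H : ℝ) ^ (2 - ε / 2)) ≤
        (H : ℝ) ^ (2 - η) := by
      rw [← Real.rpow_add hHpos, ← Real.rpow_add hHpos]
      apply Real.rpow_le_rpow_of_exponent_le hH'
      linarith
    refine hsum.trans ?_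
    calc (U : ℝ) * (2 * (s + 1) * CD * |CL| *
        (CS * (H : ℝ) ^ (3 * ε') * (Z + (H : ℝ) ^ (2 - ε / 2))))
        ≤ (H : ℝ) ^ δ' * (2 * (s + 1) * CD * |CL| *
        (CS * (H : ℝ) ^ (3 * ε') * (Z + (H : ℝ) ^ (2 - ε / 2)))) := by
          apply mul_le_mul_of_nonneg_right hUle
          positivity
      _ = (2 * (s + 1) * CD * |CL| * CS) * ((H : ℝ) ^ δ' * ((H : ℝ) ^ (3 * ε') * Z) +
          (H : ℝ) ^ δ' * ((H : ℝ) ^ (3 * ε') * (H : ℝ) ^ (2 - ε / 2))) := by ring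
      _ ≤ (2 * (s + 1) * CD * |CL| * CS) * ((H : ℝ) ^ (2 - η) + (H : ℝ) ^ (2 - η)) := by
          apply mul_le_mul_of_nonneg_left (add_le_add h14 h16)
          positivity
      _ = C₄ * (H : ℝ) ^ (2 - η) := by rw [hC₄]; ring
  have hcount4' : (((if 2 ≤ s then E₄ else ∅ : Set (ℤ × ℤ))).ncard : ℝ) ≤
      C₄ * (H : ℝ) ^ (2 - η) := by
    by_cases hs2 : 2 ≤ s
    · rw [if_pos hs2]
      exact hcount4 hs2
    · rw [if_neg hs2, Set.ncard_empty, Nat.cast_zero]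
      positivity
  have hmono : ∀ (C ηi : ℝ), η ≤ ηi → C * (H : ℝ) ^ (2 - ηi) ≤ |C| * (H : ℝ) ^ (2 - η) := by
    intro C ηi hi
    calc C * (H : ℝ) ^ (2 - ηi) ≤ |C| * (H : ℝ) ^ (2 - ηi) :=
          mul_le_mul_of_nonneg_right (le_abs_self _) (by positivity)
      _ ≤ _ := mul_le_mul_of_nonneg_left
          (Real.rpow_le_rpow_of_exponent_le hH' (by linarith)) (abs_nonneg _)
  have hfin4' : ((if 2 ≤ s then E₄ else ∅ : Set (ℤ × ℤ))).Finite := by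
    by_cases hs2 : 2 ≤ s
    · rw [if_pos hs2]
      exact hfinE4
    · rw [if_neg hs2]
      exact Set.finite_empty
  have htot : Bad.ncard ≤ E₁.ncard + E₂.ncard + E₃.ncard +
      ((if 2 ≤ s then E₄ else ∅ : Set (ℤ × ℤ))).ncard := by
    refine (Set.ncard_le_ncard hcover
      (((hfinE1.union hfinE2).union hfinE3).union hfin4')).trans ?_
    refine (Set.ncard_union_le _ _).trans (Nat.add_le_add_right ?_ _)
    refine (Set.ncard_union_le _ _).trans (Nat.add_le_add_right ?_ _)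
    exact Set.ncard_union_le _ _
  have htot' : (Bad.ncard : ℝ) ≤ E₁.ncard + E₂.ncard + E₃.ncard +
      ((if 2 ≤ s then E₄ else ∅ : Set (ℤ × ℤ))).ncard := by exact_mod_cast htot
  have k1 := h1.trans (hmono C₁ η₁ e1)
  have k2 := h2.trans (hmono C₂ η₂ e2)
  have k3 := h3.trans (hmono C₃ η₃ e3)
  have k4 : 0 ≤ 9 * (H₀ : ℝ) ^ 2 * (H : ℝ) ^ (2 - η) := by positivity
  calc (Bad.ncard : ℝ) ≤ |C₁| * (H : ℝ) ^ (2 - η) + |C₂| * (H : ℝ) ^ (2 - η) +
        |C₃| * (H : ℝ) ^ (2 - η) + C₄ * (H : ℝ) ^ (2 - η) := by linarith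
    _ ≤ (|C₁| + |C₂| + |C₃| + C₄ + 9 * (H₀ : ℝ) ^ 2) * (H : ℝ) ^ (2 - η) := by nlinarith

/-- exchange of the variables -/
noncomputable def swp (φ : MvPolynomial (Fin 2) ℤ) : MvPolynomial (Fin 2) ℤ :=
  rename (Equiv.swap (0 : Fin 2) 1) φ

lemma bv_swp (φ : MvPolynomial (Fin 2) ℤ) (a b : ℤ) : bv (swp φ) a b = bv φ b a := by
  unfold bv swp
  rw [eval_rename]
  congr 2
  funext i
  fin_cases i <;> simp

lemma swp_hom {φ : MvPolynomial (Fin 2) ℤ} {s : ℕ} (h : φ.IsHomogeneous s) :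
    (swp φ).IsHomogeneous s := h.rename_isHomogeneous

lemma swp_irr {φ : MvPolynomial (Fin 2) ℤ} (h : Irreducible φ) : Irreducible (swp φ) := by
  have h1 : swp φ = renameEquiv ℤ (Equiv.swap (0 : Fin 2) 1) φ := rfl
  rw [h1]
  exact (MulEquiv.irreducible_iff (renameEquiv ℤ (Equiv.swap (0 : Fin 2) 1)).toMulEquiv).mpr h

/-- if `φ(1, 0) = 0` then the second variable divides `φ` -/
lemma dvd_of_bv (φ : MvPolynomial (Fin 2) ℤ) (s : ℕ) (hφ : φ.IsHomogeneous s)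
    (h : bv φ 1 0 = 0) : (X 1 : MvPolynomial (Fin 2) ℤ) ∣ φ := by
  classical
  have h1 : coeff (Finsupp.single 0 s) φ = 0 := by
    rw [← h]
    unfold bv
    rw [eval_eq']
    by_cases hmem : Finsupp.single 0 s ∈ φ.support
    · rw [Finset.sum_eq_single_of_mem _ hmem]
      · rw [Fin.prod_univ_two]
        simp
      · intro d hd hne
        have h3 := hφ (mem_support_iff.mp hd)
        rw [Finsupp.weight_apply, Finsupp.sum_fintype _ _ (by intro i; simp),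
          Fin.sum_univ_two] at h3
        have h4 : d 0 + d 1 = s := by simpa using h3
        have h5 : d 1 ≠ 0 := by
          intro h6
          apply hne
          ext i
          fin_cases i
          · simp
            omega
          · simp [h6]
        rw [Fin.prod_univ_two]
        simp [h5]
    · rw [notMem_support_iff.mp hmem]
      symm
      apply Finset.sum_eq_zero
      intro d hd
      have h3 := hφ (mem_support_iff.mp hd)
      rw [Finsupp.weight_apply, Finsupp.sum_fintype _ _ (by intro i; simp),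
        Fin.sum_univ_two] at h3
      have h4 : d 0 + d 1 = s := by simpa using h3
      have h5 : d 1 ≠ 0 := by
        intro h6
        apply hmem
        have : d = Finsupp.single 0 s := by
          ext i
          fin_cases i
          · simp
            omega
          · simp [h6]
        rwa [← this]
      rw [Fin.prod_univ_two]
      simp [h5]
  rw [X_dvd_iff_modMonomial_eq_zero]
  ext d
  rw [coeff_zero]
  by_cases hle : Finsupp.single 1 1 ≤ d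
  · exact coeff_modMonomial_of_le _ hle
  · rw [coeff_modMonomial_of_not_le _ hle]
    by_contra hne
    have h3 := hφ hne
    rw [Finsupp.weight_apply, Finsupp.sum_fintype _ _ (by intro i; simp),
      Fin.sum_univ_two] at h3
    have h4 : d 0 + d 1 = s := by simpa using h3
    have h5 : d 1 = 0 := by
      by_contra h6
      apply hle
      rw [Finsupp.single_le_iff]
      omega
    apply hne
    have : d = Finsupp.single 0 s := by
      ext i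
      fin_cases i
      · simp
        omega
      · simp [h5]
    rw [this]
    exact h1

lemma bv_ne_of_irr (φ : MvPolynomial (Fin 2) ℤ) (s : ℕ) (hφ : φ.IsHomogeneous s)
    (hirr : Irreducible φ) (h : bv φ 1 0 = 0) : bv (swp φ) 1 0 ≠ 0 := by
  obtain ⟨ψ, hψ⟩ := dvd_of_bv φ s hφ h
  rcases hirr.isUnit_or_isUnit hψ with h1 | h1
  · have h2 : IsUnit (eval (fun _ : Fin 2 => (0 : ℤ)) (X 1 : MvPolynomial (Fin 2) ℤ)) :=
      h1.map (eval (fun _ : Fin 2 => (0 : ℤ)))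
    rw [eval_X] at h2
    exact absurd h2 not_isUnit_zero
  · rw [bv_swp, hψ]
    unfold bv
    rw [map_mul]
    have h2 : IsUnit (eval ![0, 1] ψ) := h1.map (eval ![0, 1])
    simpa using h2.ne_zero

/-- BRL -/
theorem brl (hroo : RooStmt) (hsqf : SqfStmt) (hsmv : SmvStmt) (hkpt : KptStmt)
    (hshb : ShbStmt) (hlin : LinStmt) (hdom : Pool.Agent.RAD.DomStmt) : BrlStmt := by
  intro φ s K hφ hirr hs hK ε hε
  set ε₁ : ℝ := min ε (1 / 2) with hε₁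
  have hε₁0 : 0 < ε₁ := lt_min hε (by norm_num)
  have hε₁1 : ε₁ < 1 := lt_of_le_of_lt (min_le_right _ _) (by norm_num)
  have hle : ε₁ ≤ ε := min_le_left _ _
  -- a bound for the form or for the swapped form gives the claim
  have key : ∃ C η : ℝ, 0 < η ∧ ∀ H : ℕ, 1 ≤ H →
      ({x : ℤ × ℤ | x ∈ PB H ∧ (bv φ x.1 x.2 = 0 ∨
        (partRad K (bv φ x.1 x.2).natAbs : ℝ) ≤
          (H : ℝ) ^ (((min s 4 : ℕ) : ℝ) - ε₁))}.ncard : ℝ) ≤ C * (H : ℝ) ^ (2 - η) := by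
    by_cases h10 : bv φ 1 0 = 0
    · obtain ⟨C, η, hη, h⟩ := brl_main hroo hsqf hsmv hkpt hshb hlin hdom (swp φ) s K
        (swp_hom hφ) (swp_irr hirr) hs hK (bv_ne_of_irr φ s hφ hirr h10) ε₁ hε₁0 hε₁1
      refine ⟨C, η, hη, fun H hH => ?_⟩
      refine le_trans ?_ (h H hH)
      have hfin : {x : ℤ × ℤ | x ∈ PB H ∧ (bv (swp φ) x.1 x.2 = 0 ∨
        (partRad K (bv (swp φ) x.1 x.2).natAbs : ℝ) ≤
          (H : ℝ) ^ (((min s 4 : ℕ) : ℝ) - ε₁))}.Finite :=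
        (pb_finite H).subset fun x hx => hx.1
      have h1 : {x : ℤ × ℤ | x ∈ PB H ∧ (bv φ x.1 x.2 = 0 ∨
        (partRad K (bv φ x.1 x.2).natAbs : ℝ) ≤
          (H : ℝ) ^ (((min s 4 : ℕ) : ℝ) - ε₁))} ⊆ Prod.swap '' {x : ℤ × ℤ | x ∈ PB H ∧
        (bv (swp φ) x.1 x.2 = 0 ∨ (partRad K (bv (swp φ) x.1 x.2).natAbs : ℝ) ≤
          (H : ℝ) ^ (((min s 4 : ℕ) : ℝ) - ε₁))} := by
        rintro x ⟨hx1, hx2⟩
        refine ⟨x.swap, ⟨⟨hx1.1.symm, hx1.2.2, hx1.2.1⟩, ?_⟩, Prod.swap_swap x⟩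
        rw [bv_swp]
        exact hx2
      have h2 := (Set.ncard_le_ncard h1 (hfin.image _)).trans (Set.ncard_image_le hfin)
      exact_mod_cast h2
    · exact brl_main hroo hsqf hsmv hkpt hshb hlin hdom φ s K hφ hirr hs hK h10 ε₁ hε₁0 hε₁1
  obtain ⟨C, η, hη, h⟩ := key
  refine ⟨C, η, hη, fun H hH => ?_⟩
  refine le_trans ?_ (h H hH)
  have hH' : (1 : ℝ) ≤ H := by exact_mod_cast hH
  have hfin : {x : ℤ × ℤ | x ∈ PB H ∧ (bv φ x.1 x.2 = 0 ∨
        (partRad K (bv φ x.1 x.2).natAbs : ℝ) ≤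
          (H : ℝ) ^ (((min s 4 : ℕ) : ℝ) - ε₁))}.Finite :=
    (pb_finite H).subset fun x hx => hx.1
  have h3 : {x : ℤ × ℤ | x ∈ PB H ∧ (bv φ x.1 x.2 = 0 ∨
        (partRad K (bv φ x.1 x.2).natAbs : ℝ) ≤
          (H : ℝ) ^ (((min s 4 : ℕ) : ℝ) - ε))} ⊆ {x : ℤ × ℤ | x ∈ PB H ∧ (bv φ x.1 x.2 = 0 ∨
        (partRad K (bv φ x.1 x.2).natAbs : ℝ) ≤
          (H : ℝ) ^ (((min s 4 : ℕ) : ℝ) - ε₁))} := by
    rintro x ⟨hx1, hx2⟩
    refine ⟨hx1, hx2.imp id fun h4 => h4.trans ?_⟩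
    exact Real.rpow_le_rpow_of_exponent_le hH' (by linarith)
  exact_mod_cast Set.ncard_le_ncard h3 hfin

end Pool.Agent.EVF.H40
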