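import Pool.Agent.EVF.StmtsG

/-!
# Squad EVF, row DET: lower bound for a Gram determinant over an integral matrix
-/

namespace Pool.Agent.EVF.H40

open Matrix
open scoped ComplexOrder

/-- the integral matrix `Bᵀ * B` -/
def pint {n L : ℕ} (B : Fin L → Fin n → ℤ) : Matrix (Fin n) (Fin n) ℤ :=
  (Matrix.of B)ᵀ * Matrix.of B

/-- the complex matrix `B` -/
noncomputable def bcx {n L : ℕ} (B : Fin L → Fin n → ℤ) : Matrix (Fin L) (Fin n) ℂ :=
  (Matrix.of B).map (Int.castRingHom ℂ)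

lemma pint_det {n L : ℕ} (B : Fin L → Fin n → ℤ)
    (h : ∀ a : Fin n → ℤ, (∀ ι, ∑ j, a j * B ι j = 0) → a = 0) : (pint B).det ≠ 0 := by
  intro h0
  obtain ⟨v, hv, hv0⟩ := Matrix.exists_mulVec_eq_zero_iff.mpr h0
  apply hv
  apply h
  have h1 : (Matrix.of B *ᵥ v) ⬝ᵥ (Matrix.of B *ᵥ v) = 0 := by
    have h2 : v ⬝ᵥ (pint B *ᵥ v) = 0 := by rw [hv0, dotProduct_zero]
    unfold pint at h2
    rw [← Matrix.mulVec_mulVec, Matrix.mulVec_transpose, dotProduct_comm,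
      ← Matrix.dotProduct_mulVec] at h2
    exact h2
  have h3 : Matrix.of B *ᵥ v = 0 := dotProduct_self_eq_zero.mp h1
  intro ι
  have h4 := congrFun h3 ι
  simp only [Matrix.mulVec, dotProduct, Matrix.of_apply, Pi.zero_apply] at h4
  rw [← h4]
  exact Finset.sum_congr rfl fun j _ => mul_comm _ _

lemma pcx_eq {n L : ℕ} (B : Fin L → Fin n → ℤ) :
    (pint B).map (Int.castRingHom ℂ) = (bcx B)ᴴ * bcx B := by
  ext i j
  rw [Matrix.map_apply, Matrix.mul_apply]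
  unfold pint
  rw [Matrix.mul_apply, map_sum]
  apply Finset.sum_congr rfl
  intro k _
  simp [bcx, Matrix.conjTranspose_apply]

lemma form_pcx {n L : ℕ} (B : Fin L → Fin n → ℤ) (v : Fin n → ℂ) :
    star v ⬝ᵥ (((bcx B)ᴴ * bcx B) *ᵥ v) =
      ((∑ ι, ‖∑ j, star (v j) * ((B ι j : ℤ) : ℂ)‖ ^ 2 : ℝ) : ℂ) := by
  have h1 : star v ⬝ᵥ (((bcx B)ᴴ * bcx B) *ᵥ v) = star (bcx B *ᵥ v) ⬝ᵥ (bcx B *ᵥ v) := by
    rw [← Matrix.mulVec_mulVec, Matrix.dotProduct_mulVec, Matrix.star_mulVec]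
  rw [h1]
  push_cast
  simp only [dotProduct]
  apply Finset.sum_congr rfl
  intro ι _
  have h2 : (bcx B *ᵥ v) ι = star (∑ j, star (v j) * ((B ι j : ℤ) : ℂ)) := by
    rw [star_sum]
    simp only [Matrix.mulVec, dotProduct]
    apply Finset.sum_congr rfl
    intro j _
    rw [star_mul', star_star]
    have h3 : star ((B ι j : ℤ) : ℂ) = ((B ι j : ℤ) : ℂ) := by simp
    rw [h3]
    simp [bcx, mul_comm]
  rw [Pi.star_apply, h2, star_star]
  have h4 := Complex.mul_conj (∑ j, star (v j) * ((B ι j : ℤ) : ℂ))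
  rw [Complex.normSq_eq_norm_sq] at h4
  have h5 : star (∑ j, star (v j) * ((B ι j : ℤ) : ℂ)) =
    (starRingEnd ℂ) (∑ j, star (v j) * ((B ι j : ℤ) : ℂ)) := rfl
  rw [h5, h4]
  push_cast
  rfl

/-- comparison of determinants -/
lemma det_compare {n : ℕ} (G P T : Matrix (Fin n) (Fin n) ℂ) (hG : G.IsHermitian)
    (hP : P = Tᴴ * T) (p : ℝ) (hp : P.det = (p : ℂ)) (hp1 : 1 ≤ p) (c : ℝ) (hc : 0 ≤ c)
    (h : ∀ v : Fin n → ℂ, c * (star v ⬝ᵥ (P *ᵥ v)).re ≤ (star v ⬝ᵥ (G *ᵥ v)).re) :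
    c ^ n ≤ G.det.re := by
  have hdT : (Tᴴ).det * T.det = (p : ℂ) := by
    rw [← Matrix.det_mul, ← hP, hp]
  have hT0 : T.det ≠ 0 := by
    intro h0
    rw [h0, mul_zero] at hdT
    have : p = 0 := by exact_mod_cast hdT.symm
    linarith
  have hu : IsUnit T.det := hT0.isUnit
  set S := T⁻¹ with hS
  have hTS : T * S = 1 := Matrix.mul_nonsing_inv T hu
  have hherm : (Sᴴ * G * S).IsHermitian := Matrix.isHermitian_conjTranspose_mul_mul S hG
  have h1 : ∀ w : Fin n → ℂ, c * ∑ i, ‖w i‖ ^ 2 ≤ (star w ⬝ᵥ ((Sᴴ * G * S) *ᵥ w)).re := by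
    intro w
    have h2 := h (S *ᵥ w)
    have h3 : star (S *ᵥ w) ⬝ᵥ (G *ᵥ (S *ᵥ w)) = star w ⬝ᵥ ((Sᴴ * G * S) *ᵥ w) := by
      rw [← Matrix.mulVec_mulVec, ← Matrix.mulVec_mulVec, Matrix.star_mulVec,
        ← Matrix.dotProduct_mulVec]
    have h4 : star (S *ᵥ w) ⬝ᵥ (P *ᵥ (S *ᵥ w)) = star w ⬝ᵥ w := by
      rw [hP, ← Matrix.mulVec_mulVec, Matrix.dotProduct_mulVec (star (S *ᵥ w)),
        ← Matrix.star_mulVec, Matrix.mulVec_mulVec, hTS, Matrix.one_mulVec]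
    rw [h3, h4] at h2
    refine le_trans (le_of_eq ?_) h2
    congr 1
    simp only [dotProduct, Complex.re_sum, Pi.star_apply]
    apply Finset.sum_congr rfl
    intro i _
    have h5 := Complex.mul_conj (w i)
    rw [Complex.normSq_eq_norm_sq, mul_comm] at h5
    have h6 : star (w i) = (starRingEnd ℂ) (w i) := rfl
    rw [h6, h5, Complex.ofReal_re]
  have h7 := Helper90Frey.det_lower _ hherm c hc h1
  rw [Fintype.card_fin] at h7
  have h8 : (Sᴴ * G * S).det * (p : ℂ) = G.det := by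
    rw [← hdT, ← Matrix.det_mul]
    calc (Sᴴ * G * S).det * (Tᴴ * T).det = Sᴴ.det * G.det * S.det * (Tᴴ.det * T.det) := by
          rw [Matrix.det_mul, Matrix.det_mul, Matrix.det_mul]
      _ = (Tᴴ.det * Sᴴ.det) * G.det * (T.det * S.det) := by ring
      _ = G.det := by
          rw [← Matrix.det_mul T S, hTS]
          rw [mul_comm (Tᴴ.det), ← Matrix.det_mul, ← Matrix.conjTranspose_mul, hTS]
          simp
  have h9 : (Sᴴ * G * S).det.re * p = G.det.re := by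
    rw [← h8]
    simp
  have h10 : 0 ≤ c ^ n := by positivity
  nlinarith

/-- a square root -/
lemma exists_root {n L : ℕ} (B : Fin L → Fin n → ℤ) :
    ∃ T : Matrix (Fin n) (Fin n) ℂ, (bcx B)ᴴ * bcx B = Tᴴ * T := by
  open scoped MatrixOrder in
  exact (CStarAlgebra.nonneg_iff_eq_star_mul_self (a := (bcx B)ᴴ * bcx B)).mp
    (Matrix.posSemidef_conjTranspose_mul_self (bcx B)).nonneg

/-- DET -/
theorem det : DetStmt := by
  intro n L G B K hK hG hB h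
  have hP0 := pint_det B hB
  obtain ⟨T, hT⟩ := exists_root B
  have hdet : ((bcx B)ᴴ * bcx B).det = (((pint B).det : ℤ) : ℂ) := by
    rw [← pcx_eq]
    exact (RingHom.map_det (Int.castRingHom ℂ) (pint B)).symm
  have hdet0 : 0 ≤ (pint B).det := by
    have h1 : (0 : ℂ) ≤ ((bcx B)ᴴ * bcx B).det :=
      (Matrix.posSemidef_conjTranspose_mul_self (bcx B)).det_nonneg
    rw [hdet] at h1
    exact_mod_cast h1
  have hdet1 : (1 : ℝ) ≤ (((pint B).det : ℤ) : ℝ) := by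
    have : 1 ≤ (pint B).det := by omega
    exact_mod_cast this
  set D : ℝ := K * (L + 1) with hD
  have hD0 : 0 < D := by positivity
  have hnn : ∀ v : Fin n → ℂ, n ≠ 0 → 0 ≤ (star v ⬝ᵥ (G *ᵥ v)).re := by
    intro v hn
    rcases Nat.eq_zero_or_pos L with h0 | h0
    · subst h0
      exfalso
      have h1 := hB (fun _ => 1) (fun ι => ι.elim0)
      have h2 := congrFun h1 ⟨0, Nat.pos_of_ne_zero hn⟩
      simp at h2
    · have h1 := h v ⟨0, h0⟩
      have h2 : 0 ≤ K * (star v ⬝ᵥ (G *ᵥ v)).re := le_trans (by positivity) h1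
      exact nonneg_of_mul_nonneg_right h2 hK
  have hcmp : ∀ v : Fin n → ℂ, D⁻¹ * (star v ⬝ᵥ (((bcx B)ᴴ * bcx B) *ᵥ v)).re ≤
      (star v ⬝ᵥ (G *ᵥ v)).re := by
    intro v
    rw [form_pcx, Complex.ofReal_re, inv_mul_le_iff₀ hD0]
    rcases Nat.eq_zero_or_pos n with h0 | h0
    · subst h0
      simp [dotProduct]
    · have h1 := hnn v h0.ne'
      calc ∑ ι, ‖∑ j, star (v j) * ((B ι j : ℤ) : ℂ)‖ ^ 2
          ≤ ∑ _ι : Fin L, K * (star v ⬝ᵥ (G *ᵥ v)).re := Finset.sum_le_sum fun ι _ => h v ι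
        _ = L * (K * (star v ⬝ᵥ (G *ᵥ v)).re) := by simp
        _ ≤ D * (star v ⬝ᵥ (G *ᵥ v)).re := by
            rw [hD]
            have h2 : 0 ≤ K * (star v ⬝ᵥ (G *ᵥ v)).re := by positivity
            nlinarith
  refine ⟨?_, ?_⟩
  · apply PosDef.of_dotProduct_mulVec_pos hG
    intro v hv
    have hn : n ≠ 0 := by
      rintro rfl
      exact hv (Subsingleton.elim _ _)
    have h1 := hnn v hn
    have him : (star v ⬝ᵥ (G *ᵥ v)).im = 0 := hG.im_star_dotProduct_mulVec_self v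
    rw [Complex.lt_def]
    refine ⟨?_, by rw [him]; rfl⟩
    rw [Complex.zero_re]
    refine lt_of_le_of_ne h1 ?_
    intro h2
    have h3 := hcmp v
    rw [← h2, form_pcx, Complex.ofReal_re] at h3
    have h4 : ∑ ι, ‖∑ j, star (v j) * ((B ι j : ℤ) : ℂ)‖ ^ 2 ≤ 0 := by
      rwa [inv_mul_le_iff₀ hD0, mul_zero] at h3
    have h5 : ∑ ι, ‖∑ j, star (v j) * ((B ι j : ℤ) : ℂ)‖ ^ 2 = 0 :=
      le_antisymm h4 (Finset.sum_nonneg fun _ _ => by positivity)
    have h6 : star v ⬝ᵥ (((bcx B)ᴴ * bcx B) *ᵥ v) = 0 := by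
      rw [form_pcx, h5, Complex.ofReal_zero]
    have h7 : ((bcx B)ᴴ * bcx B).det ≠ 0 := by
      rw [hdet]
      exact_mod_cast hP0
    have h8 : star (bcx B *ᵥ v) ⬝ᵥ (bcx B *ᵥ v) = 0 := by
      rw [← h6, ← Matrix.mulVec_mulVec, Matrix.dotProduct_mulVec (star v), Matrix.star_mulVec]
    have h9 : bcx B *ᵥ v = 0 := dotProduct_star_self_eq_zero.mp h8
    apply h7
    apply Matrix.exists_mulVec_eq_zero_iff.mp
    exact ⟨v, hv, by rw [← Matrix.mulVec_mulVec, h9, Matrix.mulVec_zero]⟩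
  · have h1 := det_compare G _ T hG hT (((pint B).det : ℤ) : ℝ) (by
      rw [hdet, Complex.ofReal_intCast]) hdet1 D⁻¹ (by positivity) hcmp
    rw [inv_pow, inv_le_iff_one_le_mul₀ (by positivity)] at h1
    linarith

end Pool.Agent.EVF.H40
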