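import Pool.Agent.Helper40_EVF.RFB
import Pool.Agent.Helper40_EVF.BRL
import Pool.Agent.Helper70_EVF.ROO
import Pool.Agent.Helper70_EVF.PRI
import Pool.Agent.Helper65_EVF.SQF
import Pool.Agent.Helper13_EVF.SMV
import Pool.Agent.Helper77_EVF.FRM
import Pool.Agent.Helper24_EVF.KPT
import Pool.Agent.Helper10_EVF.SHB
import Pool.Agent.Helper59_EVF.SEP
import Pool.Agent.Helper25_EVF.LIN
import Pool.Agent.Helper63_EVF.RS2
import Pool.Agent.Helper44_EVF.MRL
import Pool.Agent.Helper68_EVF.SPZ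
import Pool.Agent.Helper68_EVF.SPN
import Pool.Agent.Helper68_EVF.NOP
import Pool.Agent.Helper38_EVF.SCL
import Pool.Agent.Helper59_EVF.PRJ
import Pool.Agent.Helper68_EVF.SPB
import Pool.Agent.Helper31_EVF.RDC
import Pool.Agent.Helper68_EVF.RDI
import Pool.Agent.Helper92_EVF.FIN
import Pool.Agent.Helper48_EVF.RDB
import Pool.Agent.Helper68_EVF.SUW
import Pool.Agent.Helper68_EVF.SUN
import Pool.Agent.Helper72_EVF.CBB
import Pool.Agent.Helper92_EVF.TPB
import Pool.Agent.Helper72_EVF.TWZ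
import Pool.Agent.Helper94_Rad.Final

/-!
# Squad EVF: the theorem on rational fibres, given part G
-/

namespace Pool.Agent.EVF

/-- the radical of a product of binary forms -/
theorem mrl_all : MrlStmt :=
  H44.mrl (H40.brl H70.roo (H65.sqf H70.pri) (H13.smv RAD.H81.nlb RAD.H17.nct) H24.kpt H10.shb
    (H25.lin H59.sep (RAD.H23.pwr (RAD.H51.int RAD.H51.apx)) RAD.H17.nct) RAD.H79.dom) H63.rs2

/-- the theorem on rational fibres, given the statement on one member -/
theorem rational_of_gmn (hgmn : GmnStmt) (hgm2 : Gm2Stmt) : RationalFibresStmt :=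
  H40.rfb hgmn hgm2
    (H68.spb (H68.spn H68.spz) H68.nop H38.scl H59.prj)
    (H48.rdb H31.rdc H68.rdi H92.fin)
    (H68.sun H68.suw) H92.fin mrl_all (H77.frm (H13.smv RAD.H81.nlb RAD.H17.nct))
    H72.cbb H92.tpb H72.twz

end Pool.Agent.EVF
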