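import Pool.Agent.EVF.StmtsG

/-!
# Squad EVF, row HER: the Gram matrix is Hermitian
-/

namespace Pool.Agent.EVF.H40

open MvPolynomial MeasureTheory Matrix
open scoped ComplexOrder

lemma form_star {r : ℕ} (N : Mat r) (q q' : Vec r) (z : Fin 2 → ℂ) :
    star (form N q q' z) = form N q' q z := by
  unfold form
  rw [star_div₀]
  have h1 : star ((hs (adj N z) : ℝ) : ℂ) = ((hs (adj N z) : ℝ) : ℂ) := Complex.conj_ofReal _
  rw [h1]
  congr 1
  rw [dotProduct_comm, ← Matrix.star_dotProduct_star, star_star, dotProduct_comm]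

lemma kernel_star {r : ℕ} (N : Mat r) (q q' : Vec r) (x : ℂ) :
    star (kernel N q q' x) = kernel N q' q x := by
  unfold kernel
  have h1 := AddEquiv.map_finsum (starAddEquiv : ℂ ≃+ ℂ) (fun y : ℂ =>
    ∑ᶠ (_ : y ∈ {y : ℂ | aeval ![x, y] (F N) = 0}),
      form N q q' ![x, y] / ((‖aeval ![x, y] (pderiv 1 (F N))‖ ^ 2 : ℝ) : ℂ))
  have h2 : ∀ a : ℂ, (starAddEquiv : ℂ ≃+ ℂ) a = star a := fun a => rfl
  rw [h2] at h1
  rw [h1]
  apply finsum_congr
  intro y
  rw [AddEquiv.map_finsum]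
  apply finsum_congr
  intro _
  rw [h2, star_div₀, form_star]
  congr 1
  exact Complex.conj_ofReal _

/-- HER -/
theorem her : HerStmt := by
  intro r n N bas
  ext i j
  rw [Matrix.conjTranspose_apply]
  unfold gram
  rw [Matrix.of_apply, Matrix.of_apply]
  have h1 : star (∫ x : ℂ, kernel N (bas j) (bas i) x) =
      ∫ x : ℂ, star (kernel N (bas j) (bas i) x) := (integral_conj).symm
  rw [h1]
  congr 1
  funext x
  exact kernel_star N (bas j) (bas i) x

end Pool.Agent.EVF.H40
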