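import Pool.Agent.EVF.StmtsG

/-!
# Squad EVF, row LOW: the coefficients of the forms from the Gram matrix
-/

namespace Pool.Agent.EVF.H40

open MvPolynomial MeasureTheory Matrix
open scoped ComplexOrder

/-- the exponent `(a, k)` -/
noncomputable def expo (a k : ℕ) : Fin 2 →₀ ℕ := Finsupp.single 0 a + Finsupp.single 1 k

lemma expo_zero (a k : ℕ) : expo a k 0 = a := by simp [expo]

lemma expo_one (a k : ℕ) : expo a k 1 = k := by simp [expo]

lemma expo_self (e : Fin 2 →₀ ℕ) : expo (e 0) (e 1) = e := by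
  ext i
  fin_cases i
  · exact expo_zero _ _
  · exact expo_one _ _

lemma slice_monomial_coeff (e : Fin 2 →₀ ℕ) (c x : ℂ) (k : ℕ) :
    (Helper90Frey.slice (monomial e c) x).coeff k = if e 1 = k then c * x ^ (e 0) else 0 := by
  have h1 : Helper90Frey.slice (monomial e c) x =
      Polynomial.C (c * x ^ (e 0)) * Polynomial.X ^ (e 1) := by
    unfold Helper90Frey.slice
    rw [aeval_monomial, Finsupp.prod_fintype _ _ (fun i => pow_zero _), Fin.prod_univ_two]
    simp only [Matrix.cons_val_zero, Matrix.cons_val_one, Matrix.cons_val_fin_one]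
    rw [map_mul, map_pow, ← mul_assoc]
    rfl
  rw [h1, Polynomial.coeff_C_mul_X_pow]
  by_cases h : e 1 = k
  · rw [if_pos h, if_pos h.symm]
  · rw [if_neg h, if_neg (Ne.symm h)]

lemma slice_coeff_sum (G : MvPolynomial (Fin 2) ℂ) (x : ℂ) (k g : ℕ)
    (hg : ∀ e ∈ G.support, e 0 < g) : (Helper90Frey.slice G x).coeff k =
      ∑ a : Fin g, coeff (expo a k) G * x ^ (a : ℕ) := by
  classical
  have h1 : Helper90Frey.slice G x =
      ∑ e ∈ G.support, Helper90Frey.slice (monomial e (coeff e G)) x := by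
    conv_lhs => rw [← support_sum_monomial_coeff G]
    unfold Helper90Frey.slice
    rw [map_sum]
  rw [h1, Polynomial.finsetSum_coeff]
  simp only [slice_monomial_coeff]
  rw [← Finset.sum_filter]
  have hinj : ∀ e ∈ G.support.filter (fun e => e 1 = k), expo (e 0) k = e := by
    intro e he
    rw [Finset.mem_filter] at he
    rw [← he.2]
    exact expo_self e
  rw [Fin.sum_univ_eq_sum_range (fun a => coeff (expo a k) G * x ^ a) g]
  symm
  rw [← Finset.sum_subset (s₁ := (G.support.filter (fun e => e 1 = k)).image (fun e => e 0))]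
  · rw [Finset.sum_image]
    · apply Finset.sum_congr rfl
      intro e he
      rw [hinj e he]
    · intro e he f hf hef
      rw [← hinj e he, ← hinj f hf]
      exact congrArg (fun a => expo a k) hef
  · intro a ha
    rw [Finset.mem_image] at ha
    obtain ⟨e, he, rfl⟩ := ha
    rw [Finset.mem_range]
    exact hg e (Finset.mem_filter.mp he).1
  · intro a _ ha
    have h2 : coeff (expo a k) G = 0 := by
      by_contra h3
      apply ha
      rw [Finset.mem_image]
      exact ⟨expo a k, Finset.mem_filter.mpr ⟨mem_support_iff.mpr h3, expo_one a k⟩,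
        expo_zero a k⟩
    rw [h2, zero_mul]

lemma coeff_comb {r n : ℕ} (bas : Fin n → Vec r) (v : Fin n → ℂ) (i : Fin r)
    (e : Fin 2 →₀ ℕ) : coeff e (comb bas v i) =
      ∑ j, star (v j) * ((coeff e (bas j i) : ℤ) : ℂ) := by
  unfold comb
  rw [coeff_sum]
  apply Finset.sum_congr rfl
  intro j _
  rw [coeff_C_mul, coeff_cpx]

lemma small_comb {r n : ℕ} {s : Shape r} {N : Mat r} (bas : Fin n → Vec r)
    (h : ∀ j, bas j ∈ Hol s N) (v : Fin n → ℂ) : Small s (comb bas v) := by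
  intro i e he
  rw [mem_support_iff, coeff_comb] at he
  obtain ⟨j, _, hj⟩ := Finset.exists_ne_zero_of_sum_ne_zero he
  apply (h j).1 i e
  rw [mem_support_iff]
  intro h0
  apply hj
  rw [h0]
  simp

lemma D_le_deg {r : ℕ} (s : Shape r) (i : Fin r) : s.D i ≤ s.deg :=
  Finset.single_le_sum (f := s.D) (fun _ _ => Nat.zero_le _) (Finset.mem_univ i)

lemma small_lt {r : ℕ} {s : Shape r} (hs : s.Good) {q : CVec r} (h : Small s q) (i : Fin r)
    (e : Fin 2 →₀ ℕ) (he : e ∈ (q i).support) : e 0 < 2 * s.deg := by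
  have h1 := h i e he
  have h2 := D_le_deg s i
  have h3 := hs.u_pos
  have h4 : e 0 + 1 ≤ s.u * (e 0 + 1) := Nat.le_mul_of_pos_left _ h3
  omega

/-- LOW -/
theorem low (hqfi : QfiStmt) (hext : ExtStmt) (hmes : MesStmt) : LowStmt := by
  intro r s hs
  obtain ⟨C₁, c, hC₁, hext'⟩ := hext r s hs
  obtain ⟨c₀, hc₀, hdisc⟩ := Helper90Frey.disc_lower_scaled (2 * s.deg)
  refine ⟨max 1 (C₁ / c₀), c, le_max_left _ _, ?_⟩
  intro N b Q θ τ hN hS hred hτ n bas hbas v i e
  set q := comb bas v with hq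
  have hsm : Small s q := small_comb bas hbas v
  rw [← coeff_comb]
  obtain ⟨hint, hform, hpt⟩ := hqfi r s N hs hN hred n bas hbas v
  obtain ⟨hfin, _⟩ := hmes r s N hs hN hred
  have hae : ∀ᵐ x : ℂ, (Helper90Frey.rts (cmat N).det x).card = s.deg / s.v := by
    rw [ae_iff]
    exact hfin.measure_zero volume
  have hqf0 : ∀ᵐ x : ℂ, 0 ≤ qf N bas v x := by
    filter_upwards [hae] with x hx
    obtain ⟨W, _, h2⟩ := hpt x hx
    rw [h2]
    exact Finset.sum_nonneg fun _ _ => by positivity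
  rw [← hform]
  set I : ℝ := ∫ x, qf N bas v x with hI
  have hI0 : 0 ≤ I := integral_nonneg_of_ae hqf0
  have hb := hS.hb
  have hb0 : 0 < b := by linarith
  have hL0 : 0 ≤ (Q / θ) ^ c := by
    have := hS.hQ
    have := hS.hθ
    positivity
  by_cases he : e ∈ (q i).support
  swap
  · rw [notMem_support_iff.mp he, norm_zero, zero_pow two_ne_zero]
    have : 0 ≤ max 1 (C₁ / c₀) := le_trans zero_le_one (le_max_left _ _)
    positivity
  have he0 : e 0 < 2 * s.deg := small_lt hs hsm i e he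
  set ρ : ℝ := b ^ s.α with hρ
  have hρ0 : 0 < ρ := by positivity
  have h1 := hdisc (fun a : Fin (2 * s.deg) => coeff (expo a (e 1)) (q i)) ρ hρ0
  have h2 : c₀ * (‖coeff e (q i)‖ ^ 2 * (ρ ^ (e 0 + 1)) ^ 2) ≤
      ∫ z in Metric.ball (0 : ℂ) ρ, ‖(Helper90Frey.slice (q i) z).coeff (e 1)‖ ^ 2 := by
    have h3 : ∀ z : ℂ, (Helper90Frey.slice (q i) z).coeff (e 1) =
        ∑ a : Fin (2 * s.deg), coeff (expo a (e 1)) (q i) * z ^ (a : ℕ) := fun z =>
      slice_coeff_sum (q i) z (e 1) _ (fun f hf => small_lt hs hsm i f hf)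
    simp only [h3]
    refine le_trans ?_ h1
    apply mul_le_mul_of_nonneg_left _ hc₀.le
    have h4 := Finset.single_le_sum (f := fun a : Fin (2 * s.deg) =>
      ‖coeff (expo a (e 1)) (q i)‖ ^ 2 * (ρ ^ ((a : ℕ) + 1)) ^ 2) (fun _ _ => by positivity)
      (Finset.mem_univ (⟨e 0, he0⟩ : Fin (2 * s.deg)))
    simp only [expo_self] at h4
    exact h4
  set K : ℝ := C₁ * (Q / θ) ^ c * (b ^ (s.wt + s.m i)) ^ 2 with hK
  have hK0 : 0 ≤ K := by
    have : 0 ≤ C₁ := by linarith
    positivity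
  have h5 : (∫ z in Metric.ball (0 : ℂ) ρ, ‖(Helper90Frey.slice (q i) z).coeff (e 1)‖ ^ 2) *
      (b ^ (s.β * (e 1 + 1))) ^ 2 ≤ K * I := by
    have hcont : Continuous (fun z : ℂ => ‖(Helper90Frey.slice (q i) z).coeff (e 1)‖ ^ 2) := by
      have h3 : ∀ z : ℂ, (Helper90Frey.slice (q i) z).coeff (e 1) =
          ∑ a : Fin (2 * s.deg), coeff (expo a (e 1)) (q i) * z ^ (a : ℕ) := fun z =>
        slice_coeff_sum (q i) z (e 1) _ (fun f hf => small_lt hs hsm i f hf)
      simp only [h3]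
      fun_prop
    calc (∫ z in Metric.ball (0 : ℂ) ρ, ‖(Helper90Frey.slice (q i) z).coeff (e 1)‖ ^ 2) *
          (b ^ (s.β * (e 1 + 1))) ^ 2
        = ∫ z in Metric.ball (0 : ℂ) ρ, ‖(Helper90Frey.slice (q i) z).coeff (e 1)‖ ^ 2 *
          (b ^ (s.β * (e 1 + 1))) ^ 2 := (integral_mul_const _ _).symm
      _ ≤ ∫ z in Metric.ball (0 : ℂ) ρ, K * qf N bas v z := by
          apply integral_mono_ae
          · have h6 : Continuous (fun z : ℂ => ‖(Helper90Frey.slice (q i) z).coeff (e 1)‖ ^ 2 *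
                (b ^ (s.β * (e 1 + 1))) ^ 2) := hcont.mul continuous_const
            exact (h6.continuousOn.integrableOn_compact
              (isCompact_closedBall (0 : ℂ) ρ)).mono_set Metric.ball_subset_closedBall
          · exact (hint.const_mul _).integrableOn
          · filter_upwards [ae_restrict_of_ae hae, ae_restrict_mem Metric.isOpen_ball.measurableSet]
              with x hx hxb
            rw [mem_ball_zero_iff] at hxb
            obtain ⟨W, hW1, hW2⟩ := hpt x hx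
            rw [hW2]
            exact hext' (cmat N) b Q θ hN hS q hsm x hxb.le hx W hW1 i (e 1)
      _ = K * ∫ z in Metric.ball (0 : ℂ) ρ, qf N bas v z := integral_const_mul _ _
      _ ≤ K * I := by
          apply mul_le_mul_of_nonneg_left _ hK0
          exact setIntegral_le_integral hint hqf0
  have h6 : c₀ * (‖coeff e (q i)‖ ^ 2 * (ρ ^ (e 0 + 1)) ^ 2) * (b ^ (s.β * (e 1 + 1))) ^ 2 ≤
      K * I := (mul_le_mul_of_nonneg_right h2 (by positivity)).trans h5
  -- the powers of `b`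
  have h7 : (b ^ (s.wt + s.m i)) ≤ b ^ τ * (ρ ^ (e 0 + 1) * b ^ (s.β * (e 1 + 1))) := by
    have h8 : ρ ^ (e 0 + 1) * b ^ (s.β * (e 1 + 1)) =
        b ^ (s.α * (e 0 + 1) + s.β * (e 1 + 1)) := by
      rw [hρ, ← pow_mul, ← pow_add]
    rw [h8, ← Real.rpow_natCast b (s.wt + s.m i), ← Real.rpow_natCast b (s.α * (e 0 + 1) + _),
      ← Real.rpow_add hb0]
    apply Real.rpow_le_rpow_of_exponent_le hb
    have h9 := hτ i
    push_cast
    have h10 : (0 : ℝ) ≤ s.α * (e 0 : ℝ) := by positivity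
    have h11 : (0 : ℝ) ≤ s.β * (e 1 : ℝ) := by positivity
    nlinarith
  set X : ℝ := ρ ^ (e 0 + 1) * b ^ (s.β * (e 1 + 1)) with hX
  have hX0 : 0 < X := by positivity
  have hbτ : b ^ (2 * τ) = (b ^ τ) ^ 2 := by
    rw [mul_comm, Real.rpow_mul hb0.le]
    norm_num
  have h12 : c₀ * ‖coeff e (q i)‖ ^ 2 * X ^ 2 ≤
      C₁ * (Q / θ) ^ c * (b ^ τ) ^ 2 * I * X ^ 2 := by
    calc c₀ * ‖coeff e (q i)‖ ^ 2 * X ^ 2
        = c₀ * (‖coeff e (q i)‖ ^ 2 * (ρ ^ (e 0 + 1)) ^ 2) * (b ^ (s.β * (e 1 + 1))) ^ 2 := by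
          rw [hX]
          ring
      _ ≤ K * I := h6
      _ ≤ C₁ * (Q / θ) ^ c * (b ^ τ * X) ^ 2 * I := by
          rw [hK]
          have : 0 ≤ C₁ := by linarith
          gcongr
      _ = _ := by ring
  have h13 : c₀ * ‖coeff e (q i)‖ ^ 2 ≤ C₁ * (Q / θ) ^ c * (b ^ τ) ^ 2 * I :=
    le_of_mul_le_mul_right h12 (by positivity)
  rw [hbτ]
  calc ‖coeff e (q i)‖ ^ 2 ≤ (C₁ / c₀) * ((Q / θ) ^ c * (b ^ τ) ^ 2 * I) := by
        rw [div_mul_eq_mul_div, le_div_iff₀ hc₀]
        linarith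
    _ ≤ max 1 (C₁ / c₀) * ((Q / θ) ^ c * (b ^ τ) ^ 2 * I) := by
        apply mul_le_mul_of_nonneg_right (le_max_right _ _)
        positivity
    _ = _ := by ring

end Pool.Agent.EVF.H40
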