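import Pool.Agent.Helper40_EVF.GMN
import Pool.Agent.Helper40_EVF.HER
import Pool.Agent.Helper40_EVF.DET
import Pool.Agent.Helper40_EVF.LOW
import Pool.Agent.Helper33_EVF.LEA
import Pool.Agent.Helper91_EVF.GFI
import Pool.Agent.Helper52_EVF.RK1
import Pool.Agent.Helper68_EVF.DGP
import Pool.Agent.Helper10_EVF.WSD
import Pool.Agent.Helper70_EVF.DIV
import Pool.Agent.Helper92_EVF.EXT
import Pool.Agent.Helper63_EVF.KER
import Pool.Agent.Helper84_EVF.MES
import Pool.Agent.Helper24_EVF.HSM
import Pool.Agent.Helper44_EVF.ZBA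
import Pool.Agent.Helper41_EVF.WSZ
import Pool.Agent.Helper41_EVF.QFI
import Pool.Agent.Helper40_EVF.LO2
import Pool.Agent.Helper10_EVF.DE2
import Pool.Agent.Helper15_EVF.GM2

/-!
# Squad EVF: closure of part G
-/

namespace Pool.Agent.EVF

theorem ker_all : KerStmt := H63.ker H33.lea H52.rk1

theorem mes_all : MesStmt := H84.mes H33.lea H91.gfi H52.rk1

theorem hsm_all : HsmStmt := H24.hsm ker_all mes_all

theorem ext_of (hwsz : WszStmt) : ExtStmt := H92.ext H33.lea H68.dgp hwsz (H10.wsd hwsz) H70.div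

theorem gmn_of (hwsz : WszStmt) (hqfi : QfiStmt) : GmnStmt :=
  H40.gmn (H40.low hqfi (ext_of hwsz) mes_all) H40.det H40.her hsm_all H44.zba

/-- **the Gram matrix and the height of one member** -/
theorem gmn_all : GmnStmt := gmn_of H41.wsz_ (H41.qfi ker_all hsm_all)

/-- **the Gram matrix and the height of one member, sharp weights** -/
theorem gm2_all : Gm2Stmt :=
  H15.gm2 (H40.lo2 (H41.qfi ker_all hsm_all) (ext_of H41.wsz_) mes_all) H10.de2 H40.her hsm_all
    H44.zba

end Pool.Agent.EVF
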