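import Pool.Agent.EVF.StmtsG

/-!
# Squad EVF, row GMN: the Gram matrix and the height of one member
-/

namespace Pool.Agent.EVF.H40

open MvPolynomial MeasureTheory Matrix
open scoped ComplexOrder

lemma support_cpx {G : MvPolynomial (Fin 2) ℤ} {e : Fin 2 →₀ ℕ} (h : e ∈ (cpx G).support) :
    e ∈ G.support := by
  rw [mem_support_iff, coeff_cpx] at h
  rw [mem_support_iff]
  intro h0
  apply h
  rw [h0]
  simp

lemma expo2_self (e : Fin 2 →₀ ℕ) :
    Finsupp.single 0 (e 0) + Finsupp.single 1 (e 1) = e := by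
  ext i
  fin_cases i
  · simp
  · simp

/-- the exponents in question -/
noncomputable def slots (s : ℕ) : Finset (Fin 2 →₀ ℕ) :=
  (Finset.range s ×ˢ Finset.range s).image
    fun a => Finsupp.single 0 a.1 + Finsupp.single 1 a.2

lemma mem_slots {s : ℕ} {e : Fin 2 →₀ ℕ} (h0 : e 0 < s) (h1 : e 1 < s) : e ∈ slots s := by
  unfold slots
  rw [Finset.mem_image]
  exact ⟨(e 0, e 1), Finset.mem_product.mpr ⟨Finset.mem_range.mpr h0, Finset.mem_range.mpr h1⟩,
    expo2_self e⟩

lemma hol_slots {r : ℕ} {s : Shape r} (hs : s.Good) {N : Mat r} {q : Vec r} (h : q ∈ Hol s N)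
    (i : Fin r) (e : Fin 2 →₀ ℕ) (he : e ∈ (q i).support) : e ∈ slots (2 * s.deg) := by
  have h1 := h.1 i e he
  have h2 : s.D i ≤ s.deg :=
    Finset.single_le_sum (f := s.D) (fun _ _ => Nat.zero_le _) (Finset.mem_univ i)
  have h3 : e 0 + 1 ≤ s.u * (e 0 + 1) := Nat.le_mul_of_pos_left _ hs.u_pos
  have h4 : e 1 + 1 ≤ s.v * (e 1 + 1) := Nat.le_mul_of_pos_left _ hs.v_pos
  apply mem_slots <;> omega

/-- GMN -/
theorem gmn (hlow : LowStmt) (hdet : DetStmt) (hher : HerStmt) (hhsm : HsmStmt)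
    (hzba : ZbaStmt) : GmnStmt := by
  intro r s hs
  obtain ⟨C₂, hzba'⟩ := hzba r s hs
  obtain ⟨C₁, c, hC₁, hlow'⟩ := hlow r s hs
  classical
  set T : Finset (Fin r × (Fin 2 →₀ ℕ)) := Finset.univ ×ˢ slots (2 * s.deg) with hT
  set L : ℕ := T.card with hL
  have hE : 0 ≤ Real.log (C₁ * (L + 1)) := by
    apply Real.log_nonneg
    have : (0 : ℝ) ≤ L := Nat.cast_nonneg _
    nlinarith
  refine ⟨|C₂| + |C₂| * c + |C₂| * Real.log (C₁ * (L + 1)), ?_⟩
  intro N hsymm hdeg hred b Q θ τ hb hQ hθ hθ1 hcoef htop hτ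
  have hb0 : 0 < b := by linarith
  have hQ0 : 0 < Q := by linarith
  have hN : Shaped s (cmat N) := by
    refine ⟨fun i j => ?_, fun i j e he => hdeg i j e (support_cpx he), ?_⟩
    · rw [cmat_apply, cmat_apply, hsymm i j]
    · rw [cmat_det, coeff_cpx]
      intro h0
      have h1 : coeff (topE s) (F N) = 0 := by exact_mod_cast h0
      rw [h1] at htop
      have h2 : 0 < θ * b ^ (2 * s.wt) := by positivity
      simp at htop
      linarith
  have hS : Sized s (cmat N) b Q θ := by
    refine ⟨hb, hQ, hθ, hθ1, fun i j e => ?_, ?_⟩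
    · rw [cmat_apply, coeff_cpx, Complex.norm_intCast]
      exact hcoef i j e
    · rw [cmat_det, coeff_cpx, Complex.norm_intCast]
      exact htop
  obtain ⟨hint, S, hSm⟩ := hhsm r s N hs hN hred
  obtain ⟨n, bas, hn, hli, hspan⟩ := hzba' S (fun q hq => ((hSm q).mp hq).1)
  have hbas : ∀ j, bas j ∈ Hol s N := by
    intro j
    rw [← hSm, ← hspan]
    exact Submodule.subset_span ⟨j, rfl⟩
  set K : ℝ := C₁ * (Q / θ) ^ c * b ^ (2 * τ) with hK
  have hK0 : 0 < K := by
    have : 0 < C₁ := by linarith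
    have : 0 < b ^ (2 * τ) := Real.rpow_pos_of_pos hb0 _
    positivity
  set en := T.equivFin.symm with hen
  have hB : ∀ a : Fin n → ℤ,
      (∀ ι : Fin L, ∑ j, a j * coeff (en ι).1.2 (bas j (en ι).1.1) = 0) → a = 0 := by
    intro a ha
    have h1 : ∑ j, a j • bas j = 0 := by
      funext i
      rw [Finset.sum_apply, Pi.zero_apply]
      ext e
      rw [coeff_sum, coeff_zero]
      by_cases he : (i, e) ∈ T
      · have h2 := ha (T.equivFin ⟨(i, e), he⟩)
        rw [hen, Equiv.symm_apply_apply] at h2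
        rw [← h2]
        apply Finset.sum_congr rfl
        intro j _
        rw [Pi.smul_apply, coeff_smul, smul_eq_mul]
      · apply Finset.sum_eq_zero
        intro j _
        rw [Pi.smul_apply, coeff_smul, smul_eq_mul]
        have h2 : coeff e (bas j i) = 0 := by
          by_contra h3
          apply he
          rw [hT, Finset.mem_product]
          exact ⟨Finset.mem_univ _, hol_slots hs (hbas j) i e (mem_support_iff.mpr h3)⟩
        rw [h2, mul_zero]
    funext j
    exact Fintype.linearIndependent_iff.mp hli a h1 j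
  obtain ⟨hpd, hdetL⟩ := hdet n L (gram N bas)
    (fun ι j => coeff (en ι).1.2 (bas j (en ι).1.1)) K hK0 (hher r n N bas) hB (by
      intro v ι
      exact hlow' N b Q θ τ hN hS hred hτ n bas hbas v (en ι).1.1 (en ι).1.2)
  have habs : (n : ℝ) ≤ |C₂| := hn.trans (le_abs_self _)
  have hA0 : 0 ≤ |C₂| := abs_nonneg _
  have hl0 : 0 ≤ Real.log Q - Real.log θ := by
    have h1 := Real.log_nonneg hQ
    have h2 := Real.log_nonpos hθ.le hθ1
    linarith
  refine ⟨n, bas, ?_, ⟨hli, fun q => ?_⟩, fun i j => hint _ (hbas i) _ (hbas j), hpd, ?_⟩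
  · have : 0 ≤ |C₂| * (c : ℝ) := by positivity
    have : 0 ≤ |C₂| * Real.log (C₁ * (L + 1)) := by positivity
    linarith
  · rw [← hSm, hspan]
  · have hd : 0 < (gram N bas).det.re := by
      have h1 := hpd.det_pos
      rw [Complex.lt_def] at h1
      exact h1.1
    have hKL : 0 < K * (L + 1) := by positivity
    have h1 := Real.log_nonneg hdetL
    rw [Real.log_mul (by positivity) hd.ne', Real.log_pow] at h1
    have h2 : Real.log (K * (L + 1)) =
        Real.log (C₁ * (L + 1)) + c * (Real.log Q - Real.log θ) + 2 * τ * Real.log b := by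
      have hC0 : (0 : ℝ) < C₁ := by linarith
      have hL1 : (0 : ℝ) < (L : ℝ) + 1 := by positivity
      have hbt : 0 < b ^ (2 * τ) := Real.rpow_pos_of_pos hb0 _
      rw [hK, Real.log_mul (by positivity) hL1.ne', Real.log_mul (by positivity) hbt.ne',
        Real.log_mul hC0.ne' (by positivity), Real.log_pow, Real.log_div hQ0.ne' hθ.ne',
        Real.log_rpow hb0, Real.log_mul hC0.ne' hL1.ne']
      ring
    rw [h2] at h1
    unfold hW
    have hn0 : (0 : ℝ) ≤ n := Nat.cast_nonneg _
    have h3 : (n : ℝ) * Real.log (C₁ * (L + 1)) ≤ |C₂| * Real.log (C₁ * (L + 1)) :=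
      mul_le_mul_of_nonneg_right habs hE
    have h4 : (n : ℝ) * (c * (Real.log Q - Real.log θ)) ≤
        |C₂| * (c * (Real.log Q - Real.log θ)) := by
      apply mul_le_mul_of_nonneg_right habs
      positivity
    have h5 : 0 ≤ (|C₂| + |C₂| * Real.log (C₁ * (L + 1))) * (Real.log Q - Real.log θ) := by
      positivity
    have h6 : 0 ≤ |C₂| * c := by positivity
    have h7 : 0 ≤ (n : ℝ) * Real.log (C₁ * (L + 1)) := by positivity
    have h8 : 0 ≤ |C₂| * (c * (Real.log Q - Real.log θ)) := by positivity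
    nlinarith

end Pool.Agent.EVF.H40
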