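import Pool.Agent.EVF.StmtsB
import Pool.Agent.EVF.StmtsG
import Pool.Agent.EVF.StmtsH

/-!
# Squad EVF, row RFB: the theorem on rational fibres
-/

namespace Pool.Agent.EVF.H40

open MvPolynomial MeasureTheory
open scoped ComplexOrder
open Helper5Frey (partRad)

lemma hW_zero {r : ℕ} (N : Mat r) (bas : Fin 0 → Vec r) : hW N bas = 0 := by
  unfold hW
  rw [Matrix.det_isEmpty]
  simp

/-- from the bound of the height and a product of node primes to Frey's inequality -/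
lemma frey_of {r : ℕ} {s : Shape r} {N : Mat r} (hred : Reduced s N) {C T D κ : ℝ}
    (hG : ∃ (n : ℕ) (bas : Fin n → Vec r), (n : ℝ) ≤ C ∧ IsZBasis bas (Hol s N) ∧
      (∀ i j, Integrable (kernel N (bas i) (bas j))) ∧ (gram N bas).PosDef ∧
      hW N bas ≤ n * T + D) (P : Finset ℕ) (hP : ∀ p ∈ P, NodePrime s N p)
    (h : ∀ n : ℕ, 1 ≤ n → (n : ℝ) ≤ C → n * T + D ≤ κ * n * Real.log ((∏ p ∈ P, p : ℕ) : ℝ)) :
    FreyHolds s (fun n => κ * n) N := by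
  obtain ⟨n, bas, h1, h2, h3, h4, h5⟩ := hG
  refine ⟨hred, n, bas, h2, h3, h4, P, hP, ?_⟩
  rcases Nat.eq_zero_or_pos n with h0 | h0
  · subst h0
    rw [hW_zero]
    simp
  · exact h5.trans (h n h0 h1)

/-- the same with sharp weights -/
lemma frey_sharp {r : ℕ} {s : Shape r} {N : Mat r} (hred : Reduced s N) {C D Λ : ℝ}
    {c : ℕ → ℝ} (hc : ∀ n, 0 ≤ c n)
    (hG : ∃ (n : ℕ) (bas : Fin n → Vec r) (I : Finset (Fin r × ℕ × ℕ)), (n : ℝ) ≤ C ∧
      I.card = n ∧ (∀ x ∈ I, s.Slot x) ∧ IsZBasis bas (Hol s N) ∧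
      (∀ i j, Integrable (kernel N (bas i) (bas j))) ∧ (gram N bas).PosDef ∧
      hW N bas ≤ (∑ x ∈ I, s.omega x) * Λ + D) (P : Finset ℕ)
    (hP : ∀ p ∈ P, NodePrime s N p)
    (h : ∀ I : Finset (Fin r × ℕ × ℕ), I.Nonempty → (∀ x ∈ I, s.Slot x) →
      (∑ x ∈ I, s.omega x) * Λ + D ≤ c I.card * Real.log ((∏ p ∈ P, p : ℕ) : ℝ)) :
    FreyHolds s c N := by
  obtain ⟨n, bas, I, _, hI, hIs, h2, h3, h4, h5⟩ := hG
  refine ⟨hred, n, bas, h2, h3, h4, P, hP, ?_⟩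
  rcases I.eq_empty_or_nonempty with h0 | h0
  · have hn : n = 0 := by rw [← hI, h0, Finset.card_empty]
    subst hn
    rw [hW_zero]
    apply mul_nonneg (hc 0)
    apply Real.log_nonneg
    have : 1 ≤ ∏ p ∈ P, p := by
      apply Nat.one_le_iff_ne_zero.mpr
      rw [Finset.prod_ne_zero_iff]
      intro p hp
      obtain ⟨_, hpr, _⟩ := hP p hp
      exact hpr.ne_zero
    exact_mod_cast this
  · have h6 := h I h0 hIs
    rw [hI] at h6
    exact h5.trans h6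

open Classical in
/-- the slots -/
noncomputable def slotF {r : ℕ} (s : Shape r) : Finset (Fin r × ℕ × ℕ) :=
  (Finset.univ ×ˢ (Finset.range (2 * s.deg) ×ˢ Finset.range (2 * s.deg))).filter
    fun x => s.Slot x

lemma mem_slotF {r : ℕ} {s : Shape r} (hs : s.Good) {x : Fin r × ℕ × ℕ} (hx : s.Slot x) :
    x ∈ slotF s := by
  classical
  unfold slotF
  rw [Finset.mem_filter]
  refine ⟨?_, hx⟩
  unfold Shape.Slot at hx
  have h2 : s.D x.1 ≤ s.deg :=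
    Finset.single_le_sum (f := s.D) (fun _ _ => Nat.zero_le _) (Finset.mem_univ x.1)
  have h3 : x.2.1 + 1 ≤ s.u * (x.2.1 + 1) := Nat.le_mul_of_pos_left _ hs.u_pos
  have h4 : x.2.2 + 1 ≤ s.v * (x.2.2 + 1) := Nat.le_mul_of_pos_left _ hs.v_pos
  rw [Finset.mem_product, Finset.mem_product, Finset.mem_range, Finset.mem_range]
  refine ⟨Finset.mem_univ _, ?_, ?_⟩ <;> omega

/-- finitely many strict inequalities hold with a gap -/
lemma exists_gap {ι : Type*} (T : Finset ι) (f g : ι → ℝ) (h : ∀ i ∈ T, f i < g i) :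
    ∃ ε : ℝ, 0 < ε ∧ ∀ i ∈ T, f i + ε ≤ g i := by
  rcases T.eq_empty_or_nonempty with h0 | h0
  · exact ⟨1, one_pos, fun i hi => by simp [h0] at hi⟩
  · obtain ⟨i, hi, hmin⟩ := T.exists_min_image (fun i => g i - f i) h0
    refine ⟨g i - f i, by linarith [h i hi], fun j hj => ?_⟩
    have := hmin j hj
    linarith

lemma bv_eval (φ : MvPolynomial (Fin 2) ℤ) (t : Fin 2 → ℤ) : bv φ (t 0) (t 1) = eval t φ := by
  unfold bv
  congr 2
  funext i
  fin_cases i <;> rfl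

lemma sb_finite' (H : ℕ) : (SB H).Finite := by
  have h : SB H ⊆ ((Finset.Icc (-(H : ℤ)) H ×ˢ Finset.Icc (-(H : ℤ)) H : Finset (ℤ × ℤ)) :
      Set (ℤ × ℤ)) := by
    intro x hx
    rw [Finset.mem_coe, Finset.mem_product, Finset.mem_Icc, Finset.mem_Icc, ← abs_le, ← abs_le]
    exact hx
  exact (Finset.finite_toSet _).subset h

lemma tb_finite (H : ℕ) : (TB H).Finite := by
  have h : TB H ⊆ ((Fintype.piFinset fun _ : Fin 2 => Finset.Icc (-(H : ℤ)) H :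
      Finset (Fin 2 → ℤ)) : Set (Fin 2 → ℤ)) := by
    intro t ht
    rw [Finset.mem_coe, Fintype.mem_piFinset]
    intro l
    rw [Finset.mem_Icc, ← abs_le]
    exact ht.2 l
  exact (Finset.finite_toSet _).subset h

lemma ncard_pair (E : Set (ℤ × ℤ)) :
    {t : Fin 2 → ℤ | (t 0, t 1) ∈ E}.ncard = E.ncard := by
  have h : {t : Fin 2 → ℤ | (t 0, t 1) ∈ E} = (finTwoArrowEquiv ℤ).symm '' E := by
    ext t
    constructor
    · intro ht
      refine ⟨(t 0, t 1), ht, ?_⟩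
      exact (finTwoArrowEquiv ℤ).symm_apply_apply t
    · rintro ⟨x, hx, rfl⟩
      exact hx
  rw [h, Set.ncard_image_of_injective _ (finTwoArrowEquiv ℤ).symm.injective]

lemma finite_pair {E : Set (ℤ × ℤ)} (hE : E.Finite) : {t : Fin 2 → ℤ | (t 0, t 1) ∈ E}.Finite := by
  have h : {t : Fin 2 → ℤ | (t 0, t 1) ∈ E} = (finTwoArrowEquiv ℤ).symm '' E := by
    ext t
    constructor
    · intro ht
      refine ⟨(t 0, t 1), ht, ?_⟩
      exact (finTwoArrowEquiv ℤ).symm_apply_apply t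
    · rintro ⟨x, hx, rfl⟩
      exact hx
  rw [h]
  exact hE.image _

/-- the member at `t` -/
lemma spec_facts {r : ℕ} {s : Shape r} {W : ℕ} {M : FMat 2 r}
    (hM : FamShape s (fun _ => W) M) (t : Fin 2 → ℤ) :
    (∀ i j, spec M t i j = spec M t j i) ∧
    (∀ i j, ∀ e ∈ (spec M t i j).support, 2 * (s.u * e 0 + s.v * e 1) ≤ s.D i + s.D j) ∧
    coeff (topE s) (F (spec M t)) = eval t (coeff (topE s) M.det) := by
  refine ⟨?_, ?_, ?_⟩
  · intro i j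
    show MvPolynomial.map (eval t) (M i j) = MvPolynomial.map (eval t) (M j i)
    rw [hM.symm]
  · intro i j e he
    apply hM.deg i j e
    rw [mem_support_iff] at he ⊢
    intro h0
    apply he
    show coeff e (MvPolynomial.map (eval t) (M i j)) = 0
    rw [coeff_map, h0, map_zero]
  · have h1 : F (spec M t) = MvPolynomial.map (eval t) M.det := by
      unfold F spec
      rw [RingHom.map_det]
      rfl
    rw [h1, coeff_map]

section
variable {r : ℕ} {s : Shape r} {W : ℕ} {M : FMat 2 r}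

/-- The bound of the height of the member at `t`, `|t| ≤ H`, `|c(t)| ≥ θ H ^ δ`. -/
lemma height_bound (hgmn : GmnStmt) (hcbb : CbbStmt) (hs : s.Good) (hW : 1 ≤ W)
    (hM : FamShape s (fun _ => W) M) (δ : ℕ)
    (hδ : W * δ + s.β * (s.deg / s.v) = 2 * s.wt) :
    ∃ C : ℝ, 1 ≤ C ∧ ∀ τ : ℝ, (∀ i, (s.wt : ℝ) + s.m i - s.α - s.β ≤ τ) →
      ∀ H : ℕ, 1 ≤ H → ∀ t : Fin 2 → ℤ, (∀ l, |t l| ≤ (H : ℤ)) → Reduced s (spec M t) →
      ∀ θ : ℝ, 0 < θ → θ ≤ 1 →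
      θ * (H : ℝ) ^ δ ≤ |((eval t (coeff (topE s) M.det) : ℤ) : ℝ)| →
      ∃ (n : ℕ) (bas : Fin n → Vec r), (n : ℝ) ≤ C ∧ IsZBasis bas (Hol s (spec M t)) ∧
        (∀ i j, Integrable (kernel (spec M t) (bas i) (bas j))) ∧
        (gram (spec M t) bas).PosDef ∧
        EVF.hW (spec M t) bas ≤ n * (τ / W * Real.log H) + C * (1 - Real.log θ) := by
  obtain ⟨C₁, h1⟩ := hgmn r s hs
  obtain ⟨Q, hQ1, hQ⟩ := hcbb r s W M hM
  have hlogQ : 0 ≤ Real.log Q := Real.log_nonneg hQ1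
  refine ⟨|C₁| * (Real.log Q + 1) + 1, by nlinarith [abs_nonneg C₁], ?_⟩
  intro τ hτ H hH t ht hred θ hθ hθ1 hc
  obtain ⟨f1, f2, f3⟩ := spec_facts hM t
  have hH' : (1 : ℝ) ≤ H := by exact_mod_cast hH
  have hH0 : (0 : ℝ) < H := by linarith
  have hW' : (W : ℝ) ≠ 0 := by
    have : W ≠ 0 := by omega
    exact_mod_cast this
  set b : ℝ := (H : ℝ) ^ ((W : ℝ)⁻¹) with hb
  have hb1 : 1 ≤ b := Real.one_le_rpow hH' (by positivity)
  have hbW : b ^ W = H := by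
    rw [hb, ← Real.rpow_natCast, ← Real.rpow_mul hH0.le, inv_mul_cancel₀ hW', Real.rpow_one]
  have hlogb : Real.log b = Real.log H / W := by
    rw [hb, Real.log_rpow hH0]
    field_simp
  have ht' : ∀ l, |(t l : ℝ)| ≤ b ^ W := by
    intro l
    rw [hbW]
    exact_mod_cast ht l
  have htop : θ * b ^ (2 * s.wt) ≤ |((coeff (topE s) (F (spec M t)) : ℤ) : ℝ)| *
      b ^ (s.β * (s.deg / s.v)) := by
    rw [f3, ← hδ, pow_add, pow_mul, hbW, ← mul_assoc]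
    exact mul_le_mul_of_nonneg_right hc (by positivity)
  obtain ⟨n, bas, g1, g2, g3, g4, g5⟩ := h1 (spec M t) f1 f2 hred b Q θ τ hb1 hQ1 hθ hθ1
    (hQ b hb1 t ht') htop hτ
  refine ⟨n, bas, ?_, g2, g3, g4, ?_⟩
  · have h2 : C₁ ≤ |C₁| := le_abs_self _
    nlinarith [abs_nonneg C₁]
  · refine g5.trans ?_
    have h3 : 0 ≤ -Real.log θ := by
      have := Real.log_nonpos hθ.le hθ1
      linarith
    have h4 : (n : ℝ) * (τ * Real.log b) = n * (τ / W * Real.log H) := by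
      rw [hlogb]
      ring
    rw [h4]
    have h5 : C₁ * (Real.log Q - Real.log θ) + C₁ ≤
        |C₁| * (Real.log Q - Real.log θ) + |C₁| := by
      have h6 : C₁ ≤ |C₁| := le_abs_self _
      have h7 : 0 ≤ Real.log Q - Real.log θ := by linarith
      nlinarith
    have h8 : |C₁| * (Real.log Q - Real.log θ) + |C₁| ≤
        (|C₁| * (Real.log Q + 1) + 1) * (1 - Real.log θ) := by
      have h9 : (0 : ℝ) ≤ |C₁| * Real.log Q * (-Real.log θ) := by positivity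
      nlinarith [abs_nonneg C₁]
    linarith

/-- The bound of the height of the member at `t`, with sharp weights. -/
lemma height_sharp (hgm2 : Gm2Stmt) (hcbb : CbbStmt) (hs : s.Good) (hW : 1 ≤ W)
    (hM : FamShape s (fun _ => W) M) (δ : ℕ)
    (hδ : W * δ + s.β * (s.deg / s.v) = 2 * s.wt) :
    ∃ C : ℝ, 1 ≤ C ∧
      ∀ H : ℕ, 1 ≤ H → ∀ t : Fin 2 → ℤ, (∀ l, |t l| ≤ (H : ℤ)) → Reduced s (spec M t) →
      ∀ θ : ℝ, 0 < θ → θ ≤ 1 →
      θ * (H : ℝ) ^ δ ≤ |((eval t (coeff (topE s) M.det) : ℤ) : ℝ)| →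
      ∃ (n : ℕ) (bas : Fin n → Vec r) (I : Finset (Fin r × ℕ × ℕ)), (n : ℝ) ≤ C ∧
        I.card = n ∧ (∀ x ∈ I, s.Slot x) ∧ IsZBasis bas (Hol s (spec M t)) ∧
        (∀ i j, Integrable (kernel (spec M t) (bas i) (bas j))) ∧
        (gram (spec M t) bas).PosDef ∧
        EVF.hW (spec M t) bas ≤
          (∑ x ∈ I, s.omega x) * (Real.log H / W) + C * (1 - Real.log θ) := by
  obtain ⟨C₁, h1⟩ := hgm2 r s hs
  obtain ⟨Q, hQ1, hQ⟩ := hcbb r s W M hM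
  have hlogQ : 0 ≤ Real.log Q := Real.log_nonneg hQ1
  refine ⟨|C₁| * (Real.log Q + 1) + 1, by nlinarith [abs_nonneg C₁], ?_⟩
  intro H hH t ht hred θ hθ hθ1 hc
  obtain ⟨f1, f2, f3⟩ := spec_facts hM t
  have hH' : (1 : ℝ) ≤ H := by exact_mod_cast hH
  have hH0 : (0 : ℝ) < H := by linarith
  have hW' : (W : ℝ) ≠ 0 := by
    have : W ≠ 0 := by omega
    exact_mod_cast this
  set b : ℝ := (H : ℝ) ^ ((W : ℝ)⁻¹) with hb
  have hb1 : 1 ≤ b := Real.one_le_rpow hH' (by positivity)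
  have hbW : b ^ W = H := by
    rw [hb, ← Real.rpow_natCast, ← Real.rpow_mul hH0.le, inv_mul_cancel₀ hW', Real.rpow_one]
  have hlogb : Real.log b = Real.log H / W := by
    rw [hb, Real.log_rpow hH0]
    field_simp
  have ht' : ∀ l, |(t l : ℝ)| ≤ b ^ W := by
    intro l
    rw [hbW]
    exact_mod_cast ht l
  have htop : θ * b ^ (2 * s.wt) ≤ |((coeff (topE s) (F (spec M t)) : ℤ) : ℝ)| *
      b ^ (s.β * (s.deg / s.v)) := by
    rw [f3, ← hδ, pow_add, pow_mul, hbW, ← mul_assoc]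
    exact mul_le_mul_of_nonneg_right hc (by positivity)
  obtain ⟨n, bas, I, g1, gI, gS, g2, g3, g4, g5⟩ := h1 (spec M t) f1 f2 hred b Q θ hb1 hQ1
    hθ hθ1 (hQ b hb1 t ht') htop
  refine ⟨n, bas, I, ?_, gI, gS, g2, g3, g4, ?_⟩
  · have h2 : C₁ ≤ |C₁| := le_abs_self _
    nlinarith [abs_nonneg C₁]
  · rw [hlogb] at g5
    refine g5.trans ?_
    have h3 : 0 ≤ -Real.log θ := by
      have := Real.log_nonpos hθ.le hθ1
      linarith
    have h5 : C₁ * (Real.log Q - Real.log θ) + C₁ ≤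
        |C₁| * (Real.log Q - Real.log θ) + |C₁| := by
      have h6 : C₁ ≤ |C₁| := le_abs_self _
      have h7 : 0 ≤ Real.log Q - Real.log θ := by linarith
      nlinarith
    have h8 : |C₁| * (Real.log Q - Real.log θ) + |C₁| ≤
        (|C₁| * (Real.log Q + 1) + 1) * (1 - Real.log θ) := by
      have h9 : (0 : ℝ) ≤ |C₁| * Real.log Q * (-Real.log θ) := by positivity
      nlinarith [abs_nonneg C₁]
    linarith

end

/-- the product of the forms -/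
lemma prod_hom {m : ℕ} {φ : Fin m → MvPolynomial (Fin 2) ℤ} {d : Fin m → ℕ}
    (h : ∀ j, (φ j).IsHomogeneous (d j)) : (∏ j, φ j).IsHomogeneous (∑ j, d j) :=
  IsHomogeneous.prod _ _ _ fun j _ => h j

/-- node primes outside a finite set of parameters -/
lemma nodes (hspb : SpbStmt) {r : ℕ} {s : Shape r} {W : ℕ} {M : FMat 2 r} (hW : 1 ≤ W)
    (hom : FamHom s W M) {m : ℕ} {φ : Fin m → MvPolynomial (Fin 2) ℤ} {d : Fin m → ℕ}
    (hd : ∀ j, 1 ≤ d j)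
    (hφ : ∀ j, (φ j).IsHomogeneous (d j) ∧ Irreducible (φ j) ∧ NodalForm s W M (φ j)) :
    ∃ K : ℕ, 1 ≤ K ∧ ∃ E : Set (Fin 2 → ℤ), E.Finite ∧ ∀ t : Fin 2 → ℤ,
      IsCoprime (t 0) (t 1) → t ∉ E → ∀ p ∈ ((eval t (∏ j, φ j)).natAbs.primeFactors.filter
        (fun p => ¬ p ∣ K)), NodePrime s (spec M t) p := by
  classical
  choose K hK hfin using fun j => hspb r s W (d j) M (φ j) hW hom (hd j) (hφ j).1 (hφ j).2.1
    (hφ j).2.2
  refine ⟨2 * ∏ j, K j, ?_, ⋃ j, {t : Fin 2 → ℤ | IsCoprime (t 0) (t 1) ∧ ∃ p : ℕ, p.Prime ∧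
    p ≠ 2 ∧ (p : ℤ) ∣ eval t (φ j) ∧ ¬ p ∣ K j ∧ ¬ NodePrime s (spec M t) p},
    Set.finite_iUnion hfin, ?_⟩
  · apply Nat.one_le_iff_ne_zero.mpr
    exact mul_ne_zero two_ne_zero (Finset.prod_ne_zero_iff.mpr fun j _ => hK j)
  · intro t ht hE p hp
    rw [Finset.mem_filter] at hp
    obtain ⟨hp1, hp2⟩ := hp
    have hprime := Nat.prime_of_mem_primeFactors hp1
    have hdvd := Nat.dvd_of_mem_primeFactors hp1
    have hdvd' : (p : ℤ) ∣ ∏ j, eval t (φ j) := by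
      rw [← map_prod]
      exact Int.natCast_dvd.mpr hdvd
    obtain ⟨j, _, hj⟩ := (Prime.dvd_finsetProd_iff
      (Nat.prime_iff_prime_int.mp hprime) _).mp hdvd'
    by_contra hcon
    apply hE
    rw [Set.mem_iUnion]
    refine ⟨j, ht, p, hprime, ?_, hj, ?_, hcon⟩
    · rintro rfl
      exact hp2 (Dvd.intro _ rfl)
    · intro h
      apply hp2
      exact (h.trans (Finset.dvd_prod_of_mem K (Finset.mem_univ j))).mul_left 2

/-- the first half -/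
lemma part_one (hgm2 : Gm2Stmt) (hspb : SpbStmt) (hrdb : RdbStmt) (hmrl : MrlStmt)
    (hfrm : FrmStmt) (hcbb : CbbStmt) (htpb : TpbStmt)
    {r : ℕ} {s : Shape r} {W : ℕ} {M : FMat 2 r} (hs : s.Good) (hW : 1 ≤ W)
    (hM : FamShape s (fun _ => W) M) (hom : FamHom s W M)
    (htop : coeff (topE s) M.det ≠ 0) (hred : ∃ t, Reduced s (spec M t))
    {m : ℕ} {φ : Fin m → MvPolynomial (Fin 2) ℤ} {d : Fin m → ℕ} (hm : 1 ≤ m)
    (hd : ∀ j, 1 ≤ d j)
    (hφ : ∀ j, (φ j).IsHomogeneous (d j) ∧ Irreducible (φ j) ∧ NodalForm s W M (φ j))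
    (hne : ∀ i j, i ≠ j → ¬ Associated (φ i) (φ j))
    {c : ℕ → ℝ} (hc0 : ∀ n, 0 ≤ c n)
    (hc : ∀ I : Finset (Fin r × ℕ × ℕ), I.Nonempty → (∀ x ∈ I, s.Slot x) →
        ∑ x ∈ I, s.omega x < W * ((∑ j, min (d j) 4 : ℕ) : ℝ) * c I.card) :
    ∃ C η : ℝ, 0 < η ∧ ∀ H : ℕ, 1 ≤ H →
      ({t : Fin 2 → ℤ | t ∈ TB H ∧ ¬ FreyHolds s c (spec M t)}.ncard : ℝ) ≤
        C * (H : ℝ) ^ (2 - η) := by
  classical
  obtain ⟨δ, hδ1, hδ2⟩ := htpb r s W M hW hom htop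
  obtain ⟨C₀, hC₀, hheight⟩ := height_sharp hgm2 hcbb hs hW hM δ hδ2
  obtain ⟨K, hK, E₀, hE₀, hnode⟩ := nodes hspb hW hom hd hφ
  have hrfin := hrdb r s W M hW hs hom hM.deg hred
  set Gs : ℕ := ∑ j, min (d j) 4 with hGs
  have hG1 : 1 ≤ Gs := by
    have h1 : min (d ⟨0, hm⟩) 4 ≤ Gs :=
      Finset.single_le_sum (f := fun j => min (d j) 4) (fun _ _ => Nat.zero_le _)
        (Finset.mem_univ _)
    have h2 := hd ⟨0, hm⟩
    omega
  have hGs : (1 : ℝ) ≤ Gs := by exact_mod_cast hG1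
  have hW' : (0 : ℝ) < W := by exact_mod_cast hW
  obtain ⟨g, hg0, hg⟩ := exists_gap ((slotF s).powerset.filter fun I => I.Nonempty ∧
      ∀ x ∈ I, s.Slot x) (fun I => (∑ x ∈ I, s.omega x) / W) (fun I => Gs * c I.card) (by
    intro I hI
    rw [Finset.mem_filter] at hI
    have h1 := hc I hI.2.1 hI.2.2
    rw [div_lt_iff₀ hW']
    linarith)
  set κ : ℝ := 1 + ∑ I ∈ (slotF s).powerset, c I.card with hκd
  have hκ : 0 < κ := by
    have : 0 ≤ ∑ I ∈ (slotF s).powerset, c I.card := Finset.sum_nonneg fun I _ => hc0 _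
    linarith
  have hcκ : ∀ I : Finset (Fin r × ℕ × ℕ), (∀ x ∈ I, s.Slot x) → c I.card ≤ κ := by
    intro I hI
    have h1 : c I.card ≤ ∑ I ∈ (slotF s).powerset, c I.card :=
      Finset.single_le_sum (f := fun I : Finset (Fin r × ℕ × ℕ) => c I.card)
        (fun I _ => hc0 _) (Finset.mem_powerset.mpr fun x hx => mem_slotF hs (hI x hx))
    linarith
  set ε₁ : ℝ := g / (4 * C₀) with hε₁
  have hε₁0 : 0 < ε₁ := by positivity
  set ε₂ : ℝ := g / (4 * κ) with hε₂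
  have hε₂0 : 0 < ε₂ := by positivity
  obtain ⟨C₁, η₁, hη₁, hE1⟩ := hfrm _ δ hδ1 htop ε₁ hε₁0
  obtain ⟨C₂, η₂, hη₂, hE2⟩ := hmrl m φ d K hK (fun j => ⟨(hφ j).1, (hφ j).2.1, hd j⟩) hne ε₂ hε₂0
  -- a bound beyond which everything works
  obtain ⟨H₀, hH₀⟩ : ∃ H₀ : ℕ, ∀ H : ℕ, H₀ ≤ H → 2 * C₀ / g ≤ Real.log H := by
    have h1 := (Real.tendsto_log_atTop.comp tendsto_natCast_atTop_atTop).eventually_ge_atTop
      (2 * C₀ / g)
    obtain ⟨H₀, h2⟩ := Filter.eventually_atTop.mp h1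
    exact ⟨H₀, fun H hH => h2 H hH⟩
  set R₀ : Set (Fin 2 → ℤ) := {t : Fin 2 → ℤ | IsCoprime (t 0) (t 1) ∧
    ¬ Reduced s (spec M t)} with hR₀
  set η : ℝ := min (min η₁ η₂) 1 with hη
  have hη0 : 0 < η := lt_min (lt_min hη₁ hη₂) one_pos
  have e1 : η ≤ η₁ := (min_le_left _ _).trans (min_le_left _ _)
  have e2 : η ≤ η₂ := (min_le_left _ _).trans (min_le_right _ _)
  have e3 : η ≤ 1 := min_le_right _ _
  refine ⟨|C₁| + |C₂| + (E₀.ncard + R₀.ncard : ℕ) + (TB H₀).ncard, η, hη0, ?_⟩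
  intro H hH
  have hH' : (1 : ℝ) ≤ H := by exact_mod_cast hH
  have hHpos : (0 : ℝ) < H := by linarith
  have hpw : (1 : ℝ) ≤ (H : ℝ) ^ (2 - η) := Real.one_le_rpow hH' (by linarith)
  set Bad : Set (Fin 2 → ℤ) := {t : Fin 2 → ℤ | t ∈ TB H ∧ ¬ FreyHolds s c (spec M t)} with hBad
  rcases lt_or_ge H H₀ with hlt | hge
  · have h1 : Bad ⊆ TB H₀ := by
      intro t ht
      refine ⟨ht.1.1, fun l => (ht.1.2 l).trans ?_⟩
      exact_mod_cast hlt.le
    have h2 : (Bad.ncard : ℝ) ≤ (TB H₀).ncard := by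
      exact_mod_cast Set.ncard_le_ncard h1 (tb_finite H₀)
    have h3 : ((TB H₀).ncard : ℝ) * 1 ≤ (TB H₀).ncard * (H : ℝ) ^ (2 - η) :=
      mul_le_mul_of_nonneg_left hpw (Nat.cast_nonneg _)
    have h4 : 0 ≤ (|C₁| + |C₂| + ((E₀.ncard + R₀.ncard : ℕ) : ℝ)) * (H : ℝ) ^ (2 - η) := by
      positivity
    nlinarith
  have hlog := hH₀ H hge
  set S₁ : Set (ℤ × ℤ) := {x : ℤ × ℤ | x ∈ SB H ∧
    |(bv (coeff (topE s) M.det) x.1 x.2 : ℝ)| < (H : ℝ) ^ ((δ : ℝ) - ε₁)} with hS₁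
  set S₂ : Set (ℤ × ℤ) := {x : ℤ × ℤ | x ∈ PB H ∧ ((∏ j, bv (φ j) x.1 x.2) = 0 ∨
        (partRad K (∏ j, bv (φ j) x.1 x.2).natAbs : ℝ) ≤
          (H : ℝ) ^ ((Gs : ℝ) - ε₂))} with hS₂
  have h1 := hE1 H hH
  have h2 := hE2 H hH
  have hf1 : S₁.Finite := (sb_finite' H).subset fun x hx => hx.1
  have hf2 : S₂.Finite := (sb_finite' H).subset fun x hx => hx.1.2
  have hcover : Bad ⊆ (({t : Fin 2 → ℤ | (t 0, t 1) ∈ S₁} ∪ {t : Fin 2 → ℤ | (t 0, t 1) ∈ S₂}) ∪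
      E₀) ∪ R₀ := by
    intro t ht
    by_contra hcon
    rw [Set.mem_union, Set.mem_union, Set.mem_union, not_or, not_or, not_or] at hcon
    obtain ⟨⟨⟨n1, n2⟩, n3⟩, n4⟩ := hcon
    obtain ⟨⟨hcop, hbox⟩, hbad⟩ := ht
    apply hbad
    have hSB : ((t 0, t 1) : ℤ × ℤ) ∈ SB H := ⟨hbox 0, hbox 1⟩
    have hPB : ((t 0, t 1) : ℤ × ℤ) ∈ PB H := ⟨hcop, hbox 0, hbox 1⟩
    have f1 : (H : ℝ) ^ ((δ : ℝ) - ε₁) ≤ |((eval t (coeff (topE s) M.det) : ℤ) : ℝ)| := by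
      rw [← bv_eval]
      by_contra h
      exact n1 ⟨hSB, not_le.mp h⟩
    have f2 : (∏ j, bv (φ j) (t 0) (t 1)) = eval t (∏ j, φ j) := by
      rw [map_prod]
      exact Finset.prod_congr rfl fun j _ => bv_eval _ _
    have f3 : (H : ℝ) ^ ((Gs : ℝ) - ε₂) < (partRad K (eval t (∏ j, φ j)).natAbs : ℝ) := by
      rw [← f2]
      by_contra h
      exact n2 ⟨hPB, Or.inr (not_lt.mp h)⟩
    have f4 : Reduced s (spec M t) := by
      by_contra h
      exact n4 ⟨hcop, h⟩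
    have hθ : (H : ℝ) ^ (-ε₁) * (H : ℝ) ^ δ ≤ |((eval t (coeff (topE s) M.det) : ℤ) : ℝ)| := by
      refine le_trans (le_of_eq ?_) f1
      rw [← Real.rpow_natCast, ← Real.rpow_add hHpos]
      congr 1
      ring
    have f5 := hheight H hH t hbox f4 ((H : ℝ) ^ (-ε₁)) (by positivity)
      (Real.rpow_le_one_of_one_le_of_nonpos hH' (by linarith)) hθ
    refine frey_sharp f4 hc0 f5 _ (hnode t hcop n3) ?_
    intro I hI hIs
    have f6 : ((Gs : ℝ) - ε₂) * Real.log H ≤ Real.log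
        ((∏ p ∈ (eval t (∏ j, φ j)).natAbs.primeFactors.filter (fun p => ¬ p ∣ K), p : ℕ) : ℝ) := by
      rw [← Real.log_rpow hHpos]
      exact Real.log_le_log (by positivity) f3.le
    have hlogH : 0 < Real.log H := by
      refine lt_of_lt_of_le ?_ hlog
      positivity
    have f7 : Real.log ((H : ℝ) ^ (-ε₁)) = -ε₁ * Real.log H := Real.log_rpow hHpos _
    have f8 : c I.card * (((Gs : ℝ) - ε₂) * Real.log H) ≤ c I.card * Real.log
        ((∏ p ∈ (eval t (∏ j, φ j)).natAbs.primeFactors.filter (fun p => ¬ p ∣ K), p : ℕ) : ℝ) :=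
      mul_le_mul_of_nonneg_left f6 (hc0 _)
    refine le_trans ?_ f8
    rw [f7]
    have f9 : C₀ * ε₁ = g / 4 := by
      rw [hε₁]
      field_simp
    have f10 : κ * ε₂ = g / 4 := by
      rw [hε₂]
      field_simp
    have f11 : c I.card * ε₂ ≤ g / 4 := by
      rw [← f10]
      exact mul_le_mul_of_nonneg_right (hcκ I hIs) hε₂0.le
    have f12 : 2 * C₀ ≤ g * Real.log H := by
      rw [div_le_iff₀ hg0] at hlog
      linarith
    have f14 : c I.card * ε₂ * Real.log H ≤ g / 4 * Real.log H :=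
      mul_le_mul_of_nonneg_right f11 hlogH.le
    have f15 : (∑ x ∈ I, s.omega x) / W + g ≤ Gs * c I.card := hg I (by
      rw [Finset.mem_filter, Finset.mem_powerset]
      exact ⟨fun x hx => mem_slotF hs (hIs x hx), hI, hIs⟩)
    have f16 : ((∑ x ∈ I, s.omega x) / W + g) * Real.log H ≤ Gs * c I.card * Real.log H :=
      mul_le_mul_of_nonneg_right f15 hlogH.le
    have f17 : C₀ * (1 - -ε₁ * Real.log H) = C₀ + g / 4 * Real.log H := by
      rw [← f9]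
      ring
    have f18 : (∑ x ∈ I, s.omega x) * (Real.log H / W) =
        (∑ x ∈ I, s.omega x) / W * Real.log H := by ring
    rw [f17, f18]
    have f19 : c I.card * (((Gs : ℝ) - ε₂) * Real.log H) =
        Gs * c I.card * Real.log H - c I.card * ε₂ * Real.log H := by ring
    rw [f19]
    linarith
  have hfin : ((({t : Fin 2 → ℤ | (t 0, t 1) ∈ S₁} ∪ {t : Fin 2 → ℤ | (t 0, t 1) ∈ S₂}) ∪
      E₀) ∪ R₀).Finite := (((finite_pair hf1).union (finite_pair hf2)).union hE₀).union hrfin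
  have htot : Bad.ncard ≤ S₁.ncard + S₂.ncard + E₀.ncard + R₀.ncard := by
    refine (Set.ncard_le_ncard hcover hfin).trans ?_
    refine (Set.ncard_union_le _ _).trans (Nat.add_le_add_right ?_ _)
    refine (Set.ncard_union_le _ _).trans (Nat.add_le_add_right ?_ _)
    refine (Set.ncard_union_le _ _).trans ?_
    rw [ncard_pair, ncard_pair]
  have htot' : (Bad.ncard : ℝ) ≤ S₁.ncard + S₂.ncard + (E₀.ncard + R₀.ncard : ℕ) := by
    have : Bad.ncard ≤ S₁.ncard + S₂.ncard + (E₀.ncard + R₀.ncard) := by omega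
    exact_mod_cast this
  have hmono : ∀ (C ηi : ℝ), η ≤ ηi → C * (H : ℝ) ^ (2 - ηi) ≤ |C| * (H : ℝ) ^ (2 - η) := by
    intro C ηi hi
    calc C * (H : ℝ) ^ (2 - ηi) ≤ |C| * (H : ℝ) ^ (2 - ηi) :=
          mul_le_mul_of_nonneg_right (le_abs_self _) (by positivity)
      _ ≤ _ := mul_le_mul_of_nonneg_left
          (Real.rpow_le_rpow_of_exponent_le hH' (by linarith)) (abs_nonneg _)
  have k1 := h1.trans (hmono C₁ η₁ e1)
  have k2 := h2.trans (hmono C₂ η₂ e2)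
  have k3 : ((E₀.ncard + R₀.ncard : ℕ) : ℝ) * 1 ≤ ((E₀.ncard + R₀.ncard : ℕ) : ℝ) *
    (H : ℝ) ^ (2 - η) := mul_le_mul_of_nonneg_left hpw (Nat.cast_nonneg _)
  have k4 : 0 ≤ ((TB H₀).ncard : ℝ) * (H : ℝ) ^ (2 - η) := by positivity
  calc (Bad.ncard : ℝ) ≤ |C₁| * (H : ℝ) ^ (2 - η) + |C₂| * (H : ℝ) ^ (2 - η) +
        ((E₀.ncard + R₀.ncard : ℕ) : ℝ) * (H : ℝ) ^ (2 - η) +
        ((TB H₀).ncard : ℝ) * (H : ℝ) ^ (2 - η) := by linarith
    _ = _ := by ring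

/-- the second half -/
lemma part_two (hgmn : GmnStmt) (hspb : SpbStmt) (hrdb : RdbStmt) (hsun : SunStmt)
    (hfin : FinStmt) (hcbb : CbbStmt) (htpb : TpbStmt) (htwz : TwzStmt)
    {r : ℕ} {s : Shape r} {W : ℕ} {M : FMat 2 r} (hs : s.Good) (hW : 1 ≤ W)
    (hM : FamShape s (fun _ => W) M) (hom : FamHom s W M)
    (htop : coeff (topE s) M.det ≠ 0) (hred : ∃ t, Reduced s (spec M t))
    {m : ℕ} {φ : Fin m → MvPolynomial (Fin 2) ℤ} {d : Fin m → ℕ}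
    (hd : ∀ j, 1 ≤ d j)
    (hφ : ∀ j, (φ j).IsHomogeneous (d j) ∧ Irreducible (φ j) ∧ NodalForm s W M (φ j))
    (hne : ∀ i j, i ≠ j → ¬ Associated (φ i) (φ j)) (hsum : 2 ≤ ∑ j, d j)
    {ε : ℝ} (hε : 0 < ε) :
    ∃ κ C : ℝ, ∀ H : ℕ, 1 ≤ H →
      ({t : Fin 2 → ℤ | t ∈ TB H ∧ ¬ FreyHolds s (fun n => κ * n) (spec M t)}.ncard : ℝ) ≤
        C * (H : ℝ) ^ ε := by
  classical
  obtain ⟨δ, hδ1, hδ2⟩ := htpb r s W M hW hom htop
  obtain ⟨C₀, hC₀, hheight⟩ := height_bound hgmn hcbb hs hW hM δ hδ2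
  obtain ⟨K, hK, E₀, hE₀, hnode⟩ := nodes hspb hW hom hd hφ
  have hrfin := hrdb r s W M hW hs hom hM.deg hred
  have hzfin := hfin δ _ hδ1 htop
  have hprodne : (∏ j, φ j) ≠ 0 := Finset.prod_ne_zero_iff.mpr fun j _ => (hφ j).2.1.ne_zero
  have hpfin := hfin (∑ j, d j) (∏ j, φ j) (prod_hom fun j => (hφ j).1) hprodne
  obtain ⟨t₀, t₁, ht₀, ht₁, ht⟩ := htwz m φ d (fun j => ⟨(hφ j).1, (hφ j).2.1, hd j⟩) hne hsum
  set ε₀ : ℝ := min ε 1 with hε₀
  have hε₀0 : 0 < ε₀ := lt_min hε one_pos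
  have hε₀1 : ε₀ ≤ 1 := min_le_right _ _
  have hε₀2 : ε₀ ≤ ε := min_le_left _ _
  obtain ⟨C₁, hC₁, hE1⟩ := hsun (∑ j, d j) (∏ j, φ j) (prod_hom fun j => (hφ j).1)
    ⟨t₀, t₁, ht₀, ht₁, ht⟩ K (ε₀ / 4) hK (by linarith)
  have hW' : (0 : ℝ) < W := by exact_mod_cast hW
  set τ : ℝ := (s.wt : ℝ) + ∑ i, (s.m i : ℝ) with hτdef
  have hτ0 : 0 ≤ τ := by positivity
  have hτ : ∀ i, (s.wt : ℝ) + s.m i - s.α - s.β ≤ τ := by
    intro i
    have h1 : (s.m i : ℝ) ≤ ∑ i, (s.m i : ℝ) :=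
      Finset.single_le_sum (f := fun i => (s.m i : ℝ)) (fun _ _ => Nat.cast_nonneg _)
        (Finset.mem_univ i)
    have h2 : (0 : ℝ) ≤ s.α := Nat.cast_nonneg _
    have h3 : (0 : ℝ) ≤ s.β := Nat.cast_nonneg _
    linarith
  -- the constant
  set A : ℝ := τ / W + C₀ * δ + C₀ / Real.log 2 with hA
  have hlog2 : 0 < Real.log 2 := Real.log_pos one_lt_two
  have hA0 : 0 < A := by positivity
  set κ : ℝ := 4 * A / ε₀ with hκ
  have hκ0 : 0 < κ := by positivity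
  set R₀ : Set (Fin 2 → ℤ) := {t : Fin 2 → ℤ | IsCoprime (t 0) (t 1) ∧
    ¬ Reduced s (spec M t)} with hR₀
  set Z₀ : Set (Fin 2 → ℤ) := {t : Fin 2 → ℤ | IsCoprime (t 0) (t 1) ∧
    eval t (coeff (topE s) M.det) = 0} with hZ₀
  set Z₁ : Set (Fin 2 → ℤ) := {t : Fin 2 → ℤ | IsCoprime (t 0) (t 1) ∧
    eval t (∏ j, φ j) = 0} with hZ₁
  refine ⟨κ, C₁ + (E₀.ncard + R₀.ncard + Z₀.ncard + Z₁.ncard : ℕ) + (TB 1).ncard, ?_⟩
  intro H hH
  have hH' : (1 : ℝ) ≤ H := by exact_mod_cast hH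
  have hHpos : (0 : ℝ) < H := by linarith
  have hpw : (1 : ℝ) ≤ (H : ℝ) ^ ε := Real.one_le_rpow hH' hε.le
  set Bad : Set (Fin 2 → ℤ) := {t : Fin 2 → ℤ | t ∈ TB H ∧ ¬ FreyHolds s (fun n => κ * n) (spec M t)} with hBad
  rcases Nat.lt_or_ge H 2 with hlt | hge
  · have hH1 : H = 1 := by omega
    have h1 : Bad ⊆ TB 1 := by
      intro t ht
      have := ht.1
      rwa [hH1] at this
    have h2 : (Bad.ncard : ℝ) ≤ (TB 1).ncard := by
      exact_mod_cast Set.ncard_le_ncard h1 (tb_finite 1)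
    have h3 : ((TB 1).ncard : ℝ) * 1 ≤ (TB 1).ncard * (H : ℝ) ^ ε :=
      mul_le_mul_of_nonneg_left hpw (Nat.cast_nonneg _)
    have h4 : 0 ≤ (C₁ + ((E₀.ncard + R₀.ncard + Z₀.ncard + Z₁.ncard : ℕ) : ℝ)) *
      (H : ℝ) ^ ε := by positivity
    nlinarith
  have hH2 : (2 : ℝ) ≤ H := by exact_mod_cast hge
  have hlogH : Real.log 2 ≤ Real.log H := Real.log_le_log two_pos hH2
  have hlogH0 : 0 < Real.log H := lt_of_lt_of_le hlog2 hlogH
  set R : ℝ := (H : ℝ) ^ (ε₀ / 4) with hR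
  have hR1 : 1 ≤ R := Real.one_le_rpow hH' (by linarith)
  have h1 := hE1 H R hH hR1
  set S₁ : Set (Fin 2 → ℤ) := {t : Fin 2 → ℤ | (∀ l, |t l| ≤ (H : ℤ)) ∧
      eval t (∏ j, φ j) ≠ 0 ∧
      ((Helper5Frey.partRad K (eval t (∏ j, φ j)).natAbs : ℕ) : ℝ) ≤ R} with hS₁
  have hf1 : S₁.Finite := by
    have h : S₁ ⊆ ((Fintype.piFinset fun _ : Fin 2 => Finset.Icc (-(H : ℤ)) H :
        Finset (Fin 2 → ℤ)) : Set (Fin 2 → ℤ)) := by
      intro t ht
      rw [Finset.mem_coe, Fintype.mem_piFinset]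
      intro l
      rw [Finset.mem_Icc, ← abs_le]
      exact ht.1 l
    exact (Finset.finite_toSet _).subset h
  have hcover : Bad ⊆ (((S₁ ∪ E₀) ∪ R₀) ∪ Z₀) ∪ Z₁ := by
    intro t ht
    by_contra hcon
    rw [Set.mem_union, Set.mem_union, Set.mem_union, Set.mem_union, not_or, not_or, not_or,
      not_or] at hcon
    obtain ⟨⟨⟨⟨n1, n2⟩, n3⟩, n4⟩, n5⟩ := hcon
    obtain ⟨⟨hcop, hbox⟩, hbad⟩ := ht
    apply hbad
    have f0 : eval t (∏ j, φ j) ≠ 0 := fun h => n5 ⟨hcop, h⟩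
    have f1 : eval t (coeff (topE s) M.det) ≠ 0 := fun h => n4 ⟨hcop, h⟩
    have f3 : R < (partRad K (eval t (∏ j, φ j)).natAbs : ℝ) := by
      by_contra h
      exact n1 ⟨hbox, f0, not_lt.mp h⟩
    have f4 : Reduced s (spec M t) := by
      by_contra h
      exact n3 ⟨hcop, h⟩
    have hθ : (H : ℝ) ^ (-(δ : ℝ)) * (H : ℝ) ^ δ ≤
        |((eval t (coeff (topE s) M.det) : ℤ) : ℝ)| := by
      rw [← Real.rpow_natCast, ← Real.rpow_add hHpos, neg_add_cancel, Real.rpow_zero]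
      have : 1 ≤ |eval t (coeff (topE s) M.det)| := Int.one_le_abs f1
      exact_mod_cast this
    have f5 := hheight τ hτ H hH t hbox f4 ((H : ℝ) ^ (-(δ : ℝ))) (by positivity)
      (Real.rpow_le_one_of_one_le_of_nonpos hH' (by simp)) hθ
    refine frey_of f4 f5 _ (hnode t hcop n2) ?_
    intro n hn hnC
    have hn' : (1 : ℝ) ≤ n := by exact_mod_cast hn
    have f6 : ε₀ / 4 * Real.log H ≤ Real.log
        ((∏ p ∈ (eval t (∏ j, φ j)).natAbs.primeFactors.filter (fun p => ¬ p ∣ K), p : ℕ) : ℝ) := by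
      rw [← Real.log_rpow hHpos]
      exact Real.log_le_log (by positivity) f3.le
    have f7 : Real.log ((H : ℝ) ^ (-(δ : ℝ))) = -δ * Real.log H := Real.log_rpow hHpos _
    have f8 : κ * n * (ε₀ / 4 * Real.log H) ≤ κ * n * Real.log
        ((∏ p ∈ (eval t (∏ j, φ j)).natAbs.primeFactors.filter (fun p => ¬ p ∣ K), p : ℕ) : ℝ) :=
      mul_le_mul_of_nonneg_left f6 (by positivity)
    refine le_trans ?_ f8
    rw [f7]
    have f9 : κ * (ε₀ / 4) = A := by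
      rw [hκ]
      field_simp
    have f10 : C₀ ≤ C₀ / Real.log 2 * Real.log H := by
      rw [div_mul_eq_mul_div, le_div_iff₀ hlog2]
      nlinarith
    have f11 : 0 ≤ C₀ * δ * Real.log H + C₀ / Real.log 2 * Real.log H := by positivity
    calc (n : ℝ) * (τ / W * Real.log H) + C₀ * (1 - -δ * Real.log H)
        = n * (τ / W * Real.log H) + (C₀ * δ * Real.log H + C₀) := by ring
      _ ≤ n * (τ / W * Real.log H) + (C₀ * δ * Real.log H +
          C₀ / Real.log 2 * Real.log H) := by linarith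
      _ ≤ n * (τ / W * Real.log H) + n * (C₀ * δ * Real.log H +
          C₀ / Real.log 2 * Real.log H) := by nlinarith
      _ = n * (A * Real.log H) := by rw [hA]; ring
      _ = κ * n * (ε₀ / 4 * Real.log H) := by rw [← f9]; ring
  have hfin' : ((((S₁ ∪ E₀) ∪ R₀) ∪ Z₀) ∪ Z₁).Finite :=
    (((hf1.union hE₀).union hrfin).union hzfin).union hpfin
  have htot : Bad.ncard ≤ S₁.ncard + E₀.ncard + R₀.ncard + Z₀.ncard + Z₁.ncard := by
    refine (Set.ncard_le_ncard hcover hfin').trans ?_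
    refine (Set.ncard_union_le _ _).trans (Nat.add_le_add_right ?_ _)
    refine (Set.ncard_union_le _ _).trans (Nat.add_le_add_right ?_ _)
    refine (Set.ncard_union_le _ _).trans (Nat.add_le_add_right ?_ _)
    exact Set.ncard_union_le _ _
  have htot' : (Bad.ncard : ℝ) ≤ S₁.ncard +
      (E₀.ncard + R₀.ncard + Z₀.ncard + Z₁.ncard : ℕ) := by
    have : Bad.ncard ≤ S₁.ncard + (E₀.ncard + R₀.ncard + Z₀.ncard + Z₁.ncard) := by omega
    exact_mod_cast this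
  have k1 : C₁ * R * (R * H) ^ (ε₀ / 4) ≤ C₁ * (H : ℝ) ^ ε := by
    have h2 : R * (R * H) ^ (ε₀ / 4) = (H : ℝ) ^ (ε₀ / 4 + (ε₀ / 4 + 1) * (ε₀ / 4)) := by
      have h3 : R * (H : ℝ) = (H : ℝ) ^ (ε₀ / 4 + 1) := by
        rw [hR, Real.rpow_add hHpos, Real.rpow_one]
      rw [h3, ← Real.rpow_mul hHpos.le, hR, ← Real.rpow_add hHpos]
    rw [mul_assoc, h2]
    apply mul_le_mul_of_nonneg_left _ hC₁.le
    apply Real.rpow_le_rpow_of_exponent_le hH'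
    nlinarith
  have k3 : ((E₀.ncard + R₀.ncard + Z₀.ncard + Z₁.ncard : ℕ) : ℝ) * 1 ≤
    ((E₀.ncard + R₀.ncard + Z₀.ncard + Z₁.ncard : ℕ) : ℝ) *
    (H : ℝ) ^ ε := mul_le_mul_of_nonneg_left hpw (Nat.cast_nonneg _)
  have k4 : 0 ≤ ((TB 1).ncard : ℝ) * (H : ℝ) ^ ε := by positivity
  calc (Bad.ncard : ℝ) ≤ C₁ * (H : ℝ) ^ ε +
        ((E₀.ncard + R₀.ncard + Z₀.ncard + Z₁.ncard : ℕ) : ℝ) * (H : ℝ) ^ ε +
        ((TB 1).ncard : ℝ) * (H : ℝ) ^ ε := by linarith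
    _ = _ := by ring

/-- a nodal form has positive degree -/
lemma deg_pos {r : ℕ} {s : Shape r} {W : ℕ} {M : FMat 2 r} {φ : MvPolynomial (Fin 2) ℤ} {d : ℕ}
    (h : φ.IsHomogeneous d) (hirr : Irreducible φ) (hn : NodalForm s W M φ) : 1 ≤ d := by
  by_contra h0
  have h1 : d = 0 := by omega
  rw [h1] at h
  obtain ⟨t₀, _, _, _, h2, _⟩ := hn
  have hc := totalDegree_eq_zero_iff_eq_C.mp ((totalDegree_zero_iff_isHomogeneous (Fin 2)).mpr h)
  generalize coeff 0 φ = c at hc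
  rw [hc, aeval_C] at h2
  have h4 : c = 0 := by
    have : ((c : ℤ) : ℂ) = 0 := h2
    exact_mod_cast this
  rw [h4, map_zero] at hc
  exact hirr.ne_zero hc

/-- RFB -/
theorem rfb (hgmn : GmnStmt) (hgm2 : Gm2Stmt) (hspb : SpbStmt) (hrdb : RdbStmt)
    (hsun : SunStmt) (hfin : FinStmt) (hmrl : MrlStmt) (hfrm : FrmStmt) (hcbb : CbbStmt)
    (htpb : TpbStmt) (htwz : TwzStmt) : RationalFibresStmt := by
  intro r s W M hs hW hM hom htop hred m φ d hm hφ hne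
  have hd : ∀ j, 1 ≤ d j := fun j => deg_pos (hφ j).1 (hφ j).2.1 (hφ j).2.2
  refine ⟨?_, ?_⟩
  · intro c hc0 hc
    exact part_one hgm2 hspb hrdb hmrl hfrm hcbb htpb hs hW hM hom htop hred hm hd hφ hne hc0 hc
  · intro hsum ε hε
    exact part_two hgmn hspb hrdb hsun hfin hcbb htpb htwz hs hW hM hom htop hred hd hφ hne hsum hε

end Pool.Agent.EVF.H40
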